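import Mathlib

set_option autoImplicit false

/-! The algebra of bounded functions on `ℕ × ℕ` and norms of matrices over it. -/

namespace Pool.Agent.Run7.h989.BL

open Finset Complex ComplexConjugate
open scoped CStarMatrix

/-- bounded functions on a discrete countable set -/
abbrev AA : Type := BoundedContinuousFunction (ℕ × ℕ) ℂ

section

variable [PartialOrder AA] [StarOrderedRing AA]

theorem sum_sq_apply_le {m : ℕ} (w : WithCStarModule AA (Fin m → AA)) (x : ℕ × ℕ) :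
    ∑ i, ‖w i x‖ ^ 2 ≤ ‖w‖ ^ 2 := by
  rw [WithCStarModule.pi_norm_sq]
  have h := BoundedContinuousFunction.norm_coe_le_norm
    (∑ i, inner AA (w i) (w i)) x
  refine le_trans (le_of_eq ?_) h
  have h1 : (∑ i, inner AA (w i) (w i)) x = ((∑ i, ‖w i x‖ ^ 2 : ℝ) : ℂ) := by
    rw [BoundedContinuousFunction.coe_sum, Finset.sum_apply]
    push_cast
    refine Finset.sum_congr rfl fun i _ => ?_
    rw [WithCStarModule.inner_def, BoundedContinuousFunction.mul_apply,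
      BoundedContinuousFunction.star_apply]
    exact Complex.mul_conj' _
  rw [h1, Complex.norm_real, Real.norm_of_nonneg]
  exact Finset.sum_nonneg fun i _ => by positivity

theorem norm_sq_le_of_apply {m : ℕ} (w : WithCStarModule AA (Fin m → AA)) (c : ℝ) (hc : 0 ≤ c)
    (h : ∀ x, ∑ i, ‖w i x‖ ^ 2 ≤ c) : ‖w‖ ^ 2 ≤ c := by
  rw [WithCStarModule.pi_norm_sq]
  rw [BoundedContinuousFunction.norm_le hc]
  intro x
  refine le_trans (le_of_eq ?_) (h x)
  have h1 : (∑ i, inner AA (w i) (w i)) x = ((∑ i, ‖w i x‖ ^ 2 : ℝ) : ℂ) := by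
    rw [BoundedContinuousFunction.coe_sum, Finset.sum_apply]
    push_cast
    refine Finset.sum_congr rfl fun i _ => ?_
    rw [WithCStarModule.inner_def, BoundedContinuousFunction.mul_apply,
      BoundedContinuousFunction.star_apply]
    exact Complex.mul_conj' _
  rw [h1, Complex.norm_real, Real.norm_of_nonneg]
  exact Finset.sum_nonneg fun i _ => by positivity

theorem toCLM_coord {n m : ℕ} (M : CStarMatrix (Fin n) (Fin m) AA)
    (w : WithCStarModule AA (Fin n → AA)) (j : Fin m) (x : ℕ × ℕ) :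
    (CStarMatrix.toCLM M w) j x = ∑ i, w i x * M i j x := by
  rw [CStarMatrix.toCLM_apply_eq_sum, WithCStarModule.equiv_symm_pi_apply,
    BoundedContinuousFunction.coe_sum, Finset.sum_apply]
  rfl

theorem norm_le_of_pointwise {n m : ℕ} (M : CStarMatrix (Fin n) (Fin m) AA) (c : ℝ) (hc : 0 ≤ c)
    (h : ∀ (x : ℕ × ℕ) (v : Fin n → ℂ), ∑ j, ‖∑ i, v i * M i j x‖ ^ 2 ≤ c ^ 2 * ∑ i, ‖v i‖ ^ 2) :
    ‖M‖ ≤ c := by
  rw [CStarMatrix.norm_def]
  refine ContinuousLinearMap.opNorm_le_bound _ hc (fun w => ?_)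
  refine le_of_sq_le_sq ?_ (by positivity)
  rw [mul_pow]
  refine norm_sq_le_of_apply _ _ (by positivity) (fun x => ?_)
  rw [Finset.sum_congr rfl (fun j _ => by rw [toCLM_coord])]
  refine (h x (fun i => w i x)).trans ?_
  exact mul_le_mul_of_nonneg_left (sum_sq_apply_le w x) (by positivity)

theorem row_bound {n m : ℕ} (M : CStarMatrix (Fin n) (Fin m) AA) (x : ℕ × ℕ) (v : Fin n → ℂ) :
    ∑ j, ‖∑ i, v i * M i j x‖ ^ 2 ≤ ‖M‖ ^ 2 * ∑ i, ‖v i‖ ^ 2 := by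
  set w : WithCStarModule AA (Fin n → AA) := (WithCStarModule.equiv AA _).symm
    (fun i => BoundedContinuousFunction.const (ℕ × ℕ) (v i)) with hw
  have hwi : ∀ i y, w i y = v i := fun i y => rfl
  have h1 : ‖w‖ ^ 2 ≤ ∑ i, ‖v i‖ ^ 2 := by
    refine norm_sq_le_of_apply _ _ (by positivity) (fun y => ?_)
    simp_rw [hwi]
    exact le_rfl
  have h2 : ∑ j, ‖(CStarMatrix.toCLM M w) j x‖ ^ 2 ≤ ‖CStarMatrix.toCLM M w‖ ^ 2 :=
    sum_sq_apply_le _ x
  have h3 : ‖CStarMatrix.toCLM M w‖ ≤ ‖M‖ * ‖w‖ := by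
    rw [CStarMatrix.norm_def]
    exact ContinuousLinearMap.le_opNorm _ _
  have h4 : ∑ j, ‖∑ i, v i * M i j x‖ ^ 2 = ∑ j, ‖(CStarMatrix.toCLM M w) j x‖ ^ 2 := by
    refine Finset.sum_congr rfl fun j _ => ?_
    rw [toCLM_coord]
    simp_rw [hwi]
  rw [h4]
  refine h2.trans ?_
  calc ‖CStarMatrix.toCLM M w‖ ^ 2 ≤ (‖M‖ * ‖w‖) ^ 2 := by gcongr
    _ = ‖M‖ ^ 2 * ‖w‖ ^ 2 := by ring
    _ ≤ ‖M‖ ^ 2 * ∑ i, ‖v i‖ ^ 2 := mul_le_mul_of_nonneg_left h1 (by positivity)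

theorem col_bound {n : ℕ} (M : CStarMatrix (Fin n) (Fin n) AA) (x : ℕ × ℕ) (v : Fin n → ℂ) :
    ∑ j, ‖∑ i, v i * M j i x‖ ^ 2 ≤ ‖M‖ ^ 2 * ∑ i, ‖v i‖ ^ 2 := by
  have h := row_bound (star M) x (fun i => conj (v i))
  rw [norm_star] at h
  have h1 : ∑ i, ‖conj (v i)‖ ^ 2 = ∑ i, ‖v i‖ ^ 2 :=
    Finset.sum_congr rfl fun i _ => by rw [RCLike.norm_conj]
  rw [h1] at h
  refine le_trans (le_of_eq ?_) h
  refine Finset.sum_congr rfl fun j _ => ?_
  congr 1
  rw [← RCLike.norm_conj]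
  congr 1
  rw [map_sum]
  refine Finset.sum_congr rfl fun i _ => ?_
  rw [map_mul]
  rfl

end

end Pool.Agent.Run7.h989.BL
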