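import Pool.Agent.Run7.h989.BL.Main
import Pool.Agent.Run7.h989.BL.Alg

set_option autoImplicit false

/-! One block of the Blecher counterexample. -/

namespace Pool.Agent.Run7.h989.BL

open Finset Complex ComplexConjugate
open scoped CStarMatrix

/-- the normalised Fourier coefficient of the `j`-th block -/
noncomputable def hat (q j : ℕ) [NeZero q] (k : ZMod q) : AA →ₗ[ℂ] ℂ where
  toFun a := (q : ℂ)⁻¹ * ∑ β : ZMod q, ee ((-1) * k * β) * a (j, β.val)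
  map_add' a b := by
    rw [← mul_add, ← Finset.sum_add_distrib]
    congr 1
    refine Finset.sum_congr rfl fun β _ => ?_
    rw [BoundedContinuousFunction.add_apply]
    ring
  map_smul' c a := by
    simp only [RingHom.id_apply, smul_eq_mul]
    rw [mul_left_comm, Finset.mul_sum (a := c)]
    congr 1
    refine Finset.sum_congr rfl fun β _ => ?_
    rw [BoundedContinuousFunction.smul_apply, smul_eq_mul]
    ring

theorem hat_apply (q j : ℕ) [NeZero q] (k : ZMod q) (a : AA) :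
    hat q j k a = (q : ℂ)⁻¹ * ∑ β : ZMod q, ee ((-1) * k * β) * a (j, β.val) := rfl

section

variable {H : Type*} [NormedAddCommGroup H] [InnerProductSpace ℂ H]

/-- rank one operators -/
noncomputable def rk (e : ℕ → H) (s : ℕ) : H →L[ℂ] H :=
  (innerSL ℂ (e s)).smulRight (e 0)

theorem rk_apply (e : ℕ → H) (s : ℕ) (x : H) : rk e s x = (inner ℂ (e s) x : ℂ) • e 0 := by
  simp [rk]

/-- the block map -/
noncomputable def blk (q j : ℕ) [NeZero q] (e : ℕ → H) : AA →ₗ[ℂ] AA →ₗ[ℂ] (H →L[ℂ] H) :=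
  LinearMap.mk₂ ℂ (fun a b => ∑ s : ZMod q, (∑ k : ZMod q,
      ee (gg k (s - k)) * (hat q j k a * hat q j (s - k) b)) • rk e s.val)
    (by
      intro a a' b
      rw [← Finset.sum_add_distrib]
      refine Finset.sum_congr rfl fun s _ => ?_
      rw [← add_smul, ← Finset.sum_add_distrib]
      congr 1
      refine Finset.sum_congr rfl fun k _ => ?_
      rw [map_add]; ring)
    (by
      intro c a b
      rw [Finset.smul_sum]
      refine Finset.sum_congr rfl fun s _ => ?_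
      rw [← smul_assoc, Finset.smul_sum]
      congr 1
      refine Finset.sum_congr rfl fun k _ => ?_
      rw [map_smul]; simp only [smul_eq_mul]; ring)
    (by
      intro a b b'
      rw [← Finset.sum_add_distrib]
      refine Finset.sum_congr rfl fun s _ => ?_
      rw [← add_smul, ← Finset.sum_add_distrib]
      congr 1
      refine Finset.sum_congr rfl fun k _ => ?_
      rw [map_add]; ring)
    (by
      intro c a b
      rw [Finset.smul_sum]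
      refine Finset.sum_congr rfl fun s _ => ?_
      rw [← smul_assoc, Finset.smul_sum]
      congr 1
      refine Finset.sum_congr rfl fun k _ => ?_
      rw [map_smul]; simp only [smul_eq_mul]; ring)

theorem blk_apply (q j : ℕ) [NeZero q] (e : ℕ → H) (a b : AA) :
    blk q j e a b = ∑ s : ZMod q, (∑ k : ZMod q,
      ee (gg k (s - k)) * (hat q j k a * hat q j (s - k) b)) • rk e s.val := rfl

theorem blk_apply_apply (q j : ℕ) [NeZero q] (e : ℕ → H) (a b : AA) (x : H) :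
    blk q j e a b x = (∑ s : ZMod q, (∑ k : ZMod q,
      ee (gg k (s - k)) * (hat q j k a * hat q j (s - k) b)) * inner ℂ (e s.val) x) • e 0 := by
  rw [blk_apply, _root_.sum_apply, Finset.sum_smul]
  refine Finset.sum_congr rfl fun s _ => ?_
  rw [_root_.smul_apply, rk_apply, smul_smul]

end

section bounds

variable [PartialOrder AA] [StarOrderedRing AA]

theorem hat_col (q j : ℕ) [NeZero q] [Fact q.Prime] {n : ℕ} (a : CStarMatrix (Fin n) (Fin n) AA)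
    (v : Fin n → ℂ) :
    ∑ k : ZMod q, ∑ i, ‖∑ i', hat q j k (a i i') * v i'‖ ^ 2 ≤ ‖a‖ ^ 2 * ∑ i, ‖v i‖ ^ 2 := by
  have hq : (0 : ℝ) < q := by exact_mod_cast Nat.pos_of_ne_zero (NeZero.ne q)
  have hm1 : (-1 : ZMod q) ≠ 0 := neg_ne_zero.mpr one_ne_zero
  have h1 : ∀ (k : ZMod q) i, ∑ i', hat q j k (a i i') * v i'
      = (q : ℂ)⁻¹ * ∑ β : ZMod q, ee ((-1) * k * β) * ∑ i', v i' * a i i' (j, β.val) := by
    intro k i
    simp_rw [hat_apply]
    have e1 : ∀ i', (q : ℂ)⁻¹ * (∑ β : ZMod q, ee ((-1) * k * β) * a i i' (j, β.val)) * v i'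
        = ∑ β : ZMod q, (q : ℂ)⁻¹ * (ee ((-1) * k * β) * (v i' * a i i' (j, β.val))) := by
      intro i'
      rw [mul_assoc, Finset.sum_mul, Finset.mul_sum]
      refine Finset.sum_congr rfl fun β _ => ?_
      ring
    rw [Finset.sum_congr rfl (fun i' _ => e1 i'), Finset.sum_comm, Finset.mul_sum]
    refine Finset.sum_congr rfl fun β _ => ?_
    rw [Finset.mul_sum, Finset.mul_sum]
  rw [Finset.sum_comm]
  have h2 : ∀ i, ∑ k : ZMod q, ‖∑ i', hat q j k (a i i') * v i'‖ ^ 2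
      = (q : ℝ)⁻¹ * ∑ β : ZMod q, ‖∑ i', v i' * a i i' (j, β.val)‖ ^ 2 := by
    intro i
    have e1 := parseval_mul (-1) hm1 (fun β : ZMod q => ∑ i', v i' * a i i' (j, β.val))
    have e2 : ∀ k : ZMod q, ‖∑ i', hat q j k (a i i') * v i'‖ ^ 2
        = ((q : ℝ)⁻¹) ^ 2 *
          ‖∑ β : ZMod q, ee ((-1) * k * β) * ∑ i', v i' * a i i' (j, β.val)‖ ^ 2 := by
      intro k
      rw [h1, norm_mul, mul_pow]
      congr 2
      simp
    rw [Finset.sum_congr rfl (fun k _ => e2 k), ← Finset.mul_sum, e1]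
    field_simp
  rw [Finset.sum_congr rfl (fun i _ => h2 i), ← Finset.mul_sum, Finset.sum_comm]
  have h3 : ∑ β : ZMod q, ∑ i, ‖∑ i', v i' * a i i' (j, β.val)‖ ^ 2
      ≤ ∑ _β : ZMod q, ‖a‖ ^ 2 * ∑ i, ‖v i‖ ^ 2 :=
    Finset.sum_le_sum fun β _ => col_bound a (j, β.val) v
  rw [Finset.sum_const, Finset.card_univ, ZMod.card, nsmul_eq_mul] at h3
  calc (q : ℝ)⁻¹ * ∑ β : ZMod q, ∑ i, ‖∑ i', v i' * a i i' (j, β.val)‖ ^ 2
      ≤ (q : ℝ)⁻¹ * (q * (‖a‖ ^ 2 * ∑ i, ‖v i‖ ^ 2)) :=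
        mul_le_mul_of_nonneg_left h3 (by positivity)
    _ = ‖a‖ ^ 2 * ∑ i, ‖v i‖ ^ 2 := by
        rw [← mul_assoc, inv_mul_cancel₀ hq.ne', one_mul]

theorem hat_row (q j : ℕ) [NeZero q] [Fact q.Prime] {n : ℕ} (a : CStarMatrix (Fin n) (Fin n) AA)
    (v : Fin n → ℂ) :
    ∑ k : ZMod q, ∑ i, ‖∑ i', hat q j k (a i' i) * v i'‖ ^ 2 ≤ ‖a‖ ^ 2 * ∑ i, ‖v i‖ ^ 2 := by
  have hq : (0 : ℝ) < q := by exact_mod_cast Nat.pos_of_ne_zero (NeZero.ne q)
  have hm1 : (-1 : ZMod q) ≠ 0 := neg_ne_zero.mpr one_ne_zero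
  have h1 : ∀ (k : ZMod q) i, ∑ i', hat q j k (a i' i) * v i'
      = (q : ℂ)⁻¹ * ∑ β : ZMod q, ee ((-1) * k * β) * ∑ i', v i' * a i' i (j, β.val) := by
    intro k i
    simp_rw [hat_apply]
    have e1 : ∀ i', (q : ℂ)⁻¹ * (∑ β : ZMod q, ee ((-1) * k * β) * a i' i (j, β.val)) * v i'
        = ∑ β : ZMod q, (q : ℂ)⁻¹ * (ee ((-1) * k * β) * (v i' * a i' i (j, β.val))) := by
      intro i'
      rw [mul_assoc, Finset.sum_mul, Finset.mul_sum]
      refine Finset.sum_congr rfl fun β _ => ?_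
      ring
    rw [Finset.sum_congr rfl (fun i' _ => e1 i'), Finset.sum_comm, Finset.mul_sum]
    refine Finset.sum_congr rfl fun β _ => ?_
    rw [Finset.mul_sum, Finset.mul_sum]
  rw [Finset.sum_comm]
  have h2 : ∀ i, ∑ k : ZMod q, ‖∑ i', hat q j k (a i' i) * v i'‖ ^ 2
      = (q : ℝ)⁻¹ * ∑ β : ZMod q, ‖∑ i', v i' * a i' i (j, β.val)‖ ^ 2 := by
    intro i
    have e1 := parseval_mul (-1) hm1 (fun β : ZMod q => ∑ i', v i' * a i' i (j, β.val))
    have e2 : ∀ k : ZMod q, ‖∑ i', hat q j k (a i' i) * v i'‖ ^ 2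
        = ((q : ℝ)⁻¹) ^ 2 *
          ‖∑ β : ZMod q, ee ((-1) * k * β) * ∑ i', v i' * a i' i (j, β.val)‖ ^ 2 := by
      intro k
      rw [h1, norm_mul, mul_pow]
      congr 2
      simp
    rw [Finset.sum_congr rfl (fun k _ => e2 k), ← Finset.mul_sum, e1]
    field_simp
  rw [Finset.sum_congr rfl (fun i _ => h2 i), ← Finset.mul_sum, Finset.sum_comm]
  have h3 : ∑ β : ZMod q, ∑ i, ‖∑ i', v i' * a i' i (j, β.val)‖ ^ 2
      ≤ ∑ _β : ZMod q, ‖a‖ ^ 2 * ∑ i, ‖v i‖ ^ 2 :=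
    Finset.sum_le_sum fun β _ => row_bound a (j, β.val) v
  rw [Finset.sum_const, Finset.card_univ, ZMod.card, nsmul_eq_mul] at h3
  calc (q : ℝ)⁻¹ * ∑ β : ZMod q, ∑ i, ‖∑ i', v i' * a i' i (j, β.val)‖ ^ 2
      ≤ (q : ℝ)⁻¹ * (q * (‖a‖ ^ 2 * ∑ i, ‖v i‖ ^ 2)) :=
        mul_le_mul_of_nonneg_left h3 (by positivity)
    _ = ‖a‖ ^ 2 * ∑ i, ‖v i‖ ^ 2 := by
        rw [← mul_assoc, inv_mul_cancel₀ hq.ne', one_mul]

theorem scale_aux {q n : ℕ} [NeZero q] (X : ZMod q → Fin n → Fin n → ℂ) (α : ℝ) (hα : 0 < α)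
    (h : ∀ v : Fin n → ℂ, ∑ k, ∑ i, ‖∑ i', X k i i' * v i'‖ ^ 2 ≤ α ^ 2 * ∑ i, ‖v i‖ ^ 2) :
    ColB (fun k i i' => (α⁻¹ : ℂ) * X k i i') := by
  intro v
  have h1 : ∑ k, ∑ i, ‖∑ i', (α⁻¹ : ℂ) * X k i i' * v i'‖ ^ 2
      = (α⁻¹) ^ 2 * ∑ k, ∑ i, ‖∑ i', X k i i' * v i'‖ ^ 2 := by
    rw [Finset.mul_sum]
    refine Finset.sum_congr rfl fun k _ => ?_
    rw [Finset.mul_sum]
    refine Finset.sum_congr rfl fun i _ => ?_
    have : ∑ i', (α⁻¹ : ℂ) * X k i i' * v i' = (α⁻¹ : ℂ) * ∑ i', X k i i' * v i' := by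
      rw [Finset.mul_sum]
      refine Finset.sum_congr rfl fun i' _ => ?_
      ring
    rw [this, norm_mul, mul_pow]
    congr 2
    simp [abs_of_pos hα]
  rw [h1]
  calc (α⁻¹) ^ 2 * ∑ k, ∑ i, ‖∑ i', X k i i' * v i'‖ ^ 2
      ≤ (α⁻¹) ^ 2 * (α ^ 2 * ∑ i, ‖v i‖ ^ 2) := mul_le_mul_of_nonneg_left (h v) (by positivity)
    _ = ∑ i, ‖v i‖ ^ 2 := by field_simp

theorem scale_aux' {q n : ℕ} [NeZero q] (X : ZMod q → Fin n → Fin n → ℂ) (α : ℝ) (hα : 0 < α)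
    (h : ∀ v : Fin n → ℂ, ∑ k, ∑ i, ‖∑ i', X k i' i * v i'‖ ^ 2 ≤ α ^ 2 * ∑ i, ‖v i‖ ^ 2) :
    RowB (fun k i i' => (α⁻¹ : ℂ) * X k i i') :=
  scale_aux (fun k i i' => X k i' i) α hα h

variable {H : Type*} [NormedAddCommGroup H] [InnerProductSpace ℂ H]

theorem blk_jcb (q j : ℕ) [NeZero q] [Fact q.Prime] (h6 : (6 : ZMod q) ≠ 0) (e : ℕ → H)
    (he : Orthonormal ℂ e) (n m : ℕ) (a : CStarMatrix (Fin n) (Fin n) AA)
    (b : CStarMatrix (Fin m) (Fin m) AA) (x : Fin n × Fin m → H) :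
    ∑ p : Fin n × Fin m, ‖∑ r : Fin n × Fin m, blk q j e (a p.1 r.1) (b p.2 r.2) (x r)‖ ^ 2
      ≤ (1 + Real.sqrt q) * (‖a‖ * ‖b‖) ^ 2 * ∑ r : Fin n × Fin m, ‖x r‖ ^ 2 := by
  have hx0 : 0 ≤ ∑ r : Fin n × Fin m, ‖x r‖ ^ 2 := Finset.sum_nonneg fun r _ => by positivity
  by_cases ha : ‖a‖ = 0
  · have ha' : a = 0 := norm_eq_zero.mp ha
    have h0 : ∀ i j, a i j = 0 := fun i j => by rw [ha']; rfl
    have : ∀ p : Fin n × Fin m, ∑ r : Fin n × Fin m, blk q j e (a p.1 r.1) (b p.2 r.2) (x r) = 0 := by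
      intro p
      refine Finset.sum_eq_zero fun r _ => ?_
      rw [h0, map_zero]
      simp
    rw [Finset.sum_eq_zero (fun p _ => by rw [this p]; simp)]
    positivity
  by_cases hb : ‖b‖ = 0
  · have hb' : b = 0 := norm_eq_zero.mp hb
    have h0 : ∀ i j, b i j = 0 := fun i j => by rw [hb']; rfl
    have : ∀ p : Fin n × Fin m, ∑ r : Fin n × Fin m, blk q j e (a p.1 r.1) (b p.2 r.2) (x r) = 0 := by
      intro p
      refine Finset.sum_eq_zero fun r _ => ?_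
      rw [h0, map_zero]
      simp
    rw [Finset.sum_eq_zero (fun p _ => by rw [this p]; simp)]
    positivity
  have ha' : 0 < ‖a‖ := lt_of_le_of_ne (norm_nonneg _) (Ne.symm ha)
  have hb' : 0 < ‖b‖ := lt_of_le_of_ne (norm_nonneg _) (Ne.symm hb)
  have HCX := scale_aux (fun k i i' => hat q j k (a i i')) ‖a‖ ha' (hat_col q j a)
  have HRX := scale_aux' (fun k i i' => hat q j k (a i i')) ‖a‖ ha' (hat_row q j a)
  have HCY := scale_aux (fun k i i' => hat q j k (b i i')) ‖b‖ hb' (hat_col q j b)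
  have HRY := scale_aux' (fun k i i' => hat q j k (b i i')) ‖b‖ hb' (hat_row q j b)
  have hB := block_bound h6 _ _ HCX HRX HCY HRY
    (fun s i i' => inner ℂ (e s.val) (x (i, i')))
  have hbes : ∑ s : ZMod q, ∑ i, ∑ i', ‖(inner ℂ (e s.val) (x (i, i')) : ℂ)‖ ^ 2
      ≤ ∑ r : Fin n × Fin m, ‖x r‖ ^ 2 := by
    have e1 : ∑ s : ZMod q, ∑ i, ∑ i', ‖(inner ℂ (e s.val) (x (i, i')) : ℂ)‖ ^ 2
        = ∑ r : Fin n × Fin m, ∑ s : ZMod q, ‖(inner ℂ (e s.val) (x r) : ℂ)‖ ^ 2 := by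
      rw [Finset.sum_comm]
      rw [Fintype.sum_prod_type]
      refine Finset.sum_congr rfl fun i _ => ?_
      rw [Finset.sum_comm]
    rw [e1]
    refine Finset.sum_le_sum fun r _ => ?_
    have he' : Orthonormal ℂ (fun s : ZMod q => e s.val) := he.comp _ (ZMod.val_injective q)
    exact he'.sum_inner_products_le (x r) (s := Finset.univ)
  have hkey : ∀ p : Fin n × Fin m,
      ‖∑ r : Fin n × Fin m, blk q j e (a p.1 r.1) (b p.2 r.2) (x r)‖ ^ 2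
      = (‖a‖ * ‖b‖) ^ 2 * ‖∑ s : ZMod q, ∑ i, ∑ i',
      (∑ k, ee (gg k (s - k)) * (((‖a‖ : ℝ) : ℂ)⁻¹ * hat q j k (a p.1 i) *
        (((‖b‖ : ℝ) : ℂ)⁻¹ * hat q j (s - k) (b p.2 i')))) * inner ℂ (e s.val) (x (i, i'))‖ ^ 2 := by
    intro p
    have e1 : ∑ r : Fin n × Fin m, blk q j e (a p.1 r.1) (b p.2 r.2) (x r)
        = (((‖a‖ * ‖b‖ : ℝ) : ℂ) * ∑ s : ZMod q, ∑ i, ∑ i',
      (∑ k, ee (gg k (s - k)) * (((‖a‖ : ℝ) : ℂ)⁻¹ * hat q j k (a p.1 i) *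
        (((‖b‖ : ℝ) : ℂ)⁻¹ * hat q j (s - k) (b p.2 i')))) * inner ℂ (e s.val) (x (i, i'))) • e 0 := by
      simp_rw [blk_apply_apply]
      rw [← Finset.sum_smul]
      congr 1
      rw [Finset.sum_comm, Finset.mul_sum]
      refine Finset.sum_congr rfl fun s _ => ?_
      rw [Fintype.sum_prod_type, Finset.mul_sum]
      refine Finset.sum_congr rfl fun i _ => ?_
      rw [Finset.mul_sum]
      refine Finset.sum_congr rfl fun i' _ => ?_
      rw [← mul_assoc, Finset.mul_sum]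
      congr 1
      refine Finset.sum_congr rfl fun k _ => ?_
      have h1 : ((‖a‖ : ℝ) : ℂ) ≠ 0 := by exact_mod_cast ha
      have h2 : ((‖b‖ : ℝ) : ℂ) ≠ 0 := by exact_mod_cast hb
      push_cast
      field_simp
    rw [e1, norm_smul, he.1 0, mul_one, norm_mul, mul_pow, Complex.norm_real,
      Real.norm_of_nonneg (by positivity)]
  rw [Finset.sum_congr rfl (fun p _ => hkey p), ← Finset.mul_sum, Fintype.sum_prod_type]
  calc _ ≤ (‖a‖ * ‖b‖) ^ 2 * ((1 + Real.sqrt q) *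
        ∑ s : ZMod q, ∑ i, ∑ i', ‖(inner ℂ (e s.val) (x (i, i')) : ℂ)‖ ^ 2) :=
        mul_le_mul_of_nonneg_left hB (by positivity)
    _ ≤ (‖a‖ * ‖b‖) ^ 2 * ((1 + Real.sqrt q) * ∑ r : Fin n × Fin m, ‖x r‖ ^ 2) := by
        gcongr
    _ = _ := by ring

end bounds

end Pool.Agent.Run7.h989.BL
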