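import Mathlib

set_option autoImplicit false

/-! Schmidt decomposition for the Blecher counterexample. -/

namespace Pool.Agent.Run7.h989.BL

open Finset Complex ComplexConjugate

/-- Bessel for an orthogonal family of vectors of norm at most one. -/
theorem bessel_sub {E : Type*} [NormedAddCommGroup E] [InnerProductSpace ℂ E] {ι : Type*}
    [Fintype ι] (v : ι → E) (h0 : ∀ i j, i ≠ j → inner ℂ (v i) (v j) = 0) (h1 : ∀ i, ‖v i‖ ≤ 1)
    (z : E) : ∑ i, ‖inner ℂ (v i) z‖ ^ 2 ≤ ‖z‖ ^ 2 := by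
  classical
  set y : E := ∑ i, (inner ℂ (v i) z : ℂ) • v i with hy
  have hzy : inner ℂ y z = ((∑ i, ‖inner ℂ (v i) z‖ ^ 2 : ℝ) : ℂ) := by
    rw [hy, sum_inner]
    push_cast
    refine Finset.sum_congr rfl fun i _ => ?_
    rw [inner_smul_left, mul_comm, Complex.mul_conj']
  have hyy : ‖y‖ ^ 2 ≤ ∑ i, ‖inner ℂ (v i) z‖ ^ 2 := by
    have h2 : inner ℂ y y = ((∑ i, ‖inner ℂ (v i) z‖ ^ 2 * ‖v i‖ ^ 2 : ℝ) : ℂ) := by
      nth_rewrite 1 [hy]
      rw [sum_inner]
      push_cast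
      refine Finset.sum_congr rfl fun i _ => ?_
      rw [inner_smul_left, hy, inner_sum, Finset.sum_eq_single i]
      · rw [inner_smul_right, inner_self_eq_norm_sq_to_K]
        rw [← mul_assoc, mul_comm (conj _), Complex.mul_conj']
        simp
      · intro j _ hj
        rw [inner_smul_right, h0 i j (Ne.symm hj), mul_zero]
      · intro h; exact absurd (Finset.mem_univ i) h
    have h3 : ‖y‖ ^ 2 = ∑ i, ‖inner ℂ (v i) z‖ ^ 2 * ‖v i‖ ^ 2 := by
      have h4 := inner_self_eq_norm_sq_to_K (𝕜 := ℂ) y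
      have h5 : ((‖y‖ ^ 2 : ℝ) : ℂ) = ((∑ i, ‖inner ℂ (v i) z‖ ^ 2 * ‖v i‖ ^ 2 : ℝ) : ℂ) := by
        rw [← h2, h4]; push_cast; rfl
      exact Complex.ofReal_injective h5
    rw [h3]
    refine Finset.sum_le_sum fun i _ => ?_
    have : ‖v i‖ ^ 2 ≤ 1 := pow_le_one₀ (norm_nonneg _) (h1 i)
    exact mul_le_of_le_one_right (by positivity) this
  have h5 : 0 ≤ ‖z - y‖ ^ 2 := by positivity
  rw [@norm_sub_sq ℂ] at h5
  have h6 : RCLike.re (inner ℂ z y) = ∑ i, ‖inner ℂ (v i) z‖ ^ 2 := by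
    rw [← inner_conj_symm, hzy, Complex.conj_ofReal]
    exact Complex.ofReal_re _
  rw [h6] at h5
  linarith

theorem schmidt {n m : ℕ} (ζ : Fin n → Fin m → ℂ) :
    ∃ (u : Fin n → Fin n → ℂ) (v : Fin n → Fin m → ℂ) (lam : Fin n → ℝ),
      (∀ i, 0 ≤ lam i) ∧ (∀ i, ∑ p, ‖u i p‖ ^ 2 ≤ 1) ∧ (∀ i, ∑ p, ‖v i p‖ ^ 2 ≤ 1) ∧
      (∀ z : Fin n → ℂ, ∑ i, ‖∑ p, conj (u i p) * z p‖ ^ 2 ≤ ∑ p, ‖z p‖ ^ 2) ∧
      (∀ z : Fin m → ℂ, ∑ i, ‖∑ p, conj (v i p) * z p‖ ^ 2 ≤ ∑ p, ‖z p‖ ^ 2) ∧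
      (∀ p p', ζ p p' = ∑ i, lam i * (u i p * v i p')) ∧
      ∑ i, lam i ^ 2 = ∑ p, ∑ p', ‖ζ p p'‖ ^ 2 := by
  classical
  set Z : Matrix (Fin n) (Fin m) ℂ := Matrix.of ζ with hZ
  have hM : (Z * Z.conjTranspose).IsHermitian := Matrix.isHermitian_mul_conjTranspose_self Z
  set b : OrthonormalBasis (Fin n) ℂ (EuclideanSpace ℂ (Fin n)) := hM.eigenvectorBasis with hb
  -- the vectors w
  set w : Fin n → EuclideanSpace ℂ (Fin m) := fun i =>
    WithLp.toLp 2 (fun p' => ∑ p, conj (b i p) * ζ p p') with hw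
  have hwa : ∀ i p', w i p' = ∑ p, conj (b i p) * ζ p p' := fun i p' => rfl
  -- inner products of the w's
  have hinner : ∀ i j, inner ℂ (w i) (w j) = if i = j then (hM.eigenvalues i : ℂ) else 0 := by
    intro i j
    have h1 : inner ℂ (w i) (w j) = ∑ p2, conj (b j p2) *
        ((Z * Z.conjTranspose).mulVec (b i)) p2 := by
      rw [PiLp.inner_apply]
      have e1 : ∀ p', inner ℂ (w i p') (w j p')
          = ∑ p2, ∑ p, conj (b j p2) * (ζ p2 p' * conj (ζ p p') * b i p) := by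
        intro p'
        rw [hwa, hwa]
        simp only [RCLike.inner_apply, map_sum, map_mul, Complex.conj_conj]
        rw [Finset.sum_mul]
        refine Finset.sum_congr rfl fun p2 _ => ?_
        rw [Finset.mul_sum]
        refine Finset.sum_congr rfl fun p _ => ?_
        ring
      rw [Finset.sum_congr rfl (fun p' _ => e1 p')]
      rw [Finset.sum_comm]
      refine Finset.sum_congr rfl fun p2 _ => ?_
      rw [Finset.sum_comm]
      simp only [Matrix.mulVec, dotProduct, Matrix.mul_apply, Matrix.conjTranspose_apply]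
      rw [Finset.mul_sum]
      refine Finset.sum_congr rfl fun p _ => ?_
      rw [Finset.sum_mul, Finset.mul_sum]
      refine Finset.sum_congr rfl fun p' _ => ?_
      simp [hZ]
    rw [h1]
    have h2 := hM.mulVec_eigenvectorBasis i
    rw [← hb] at h2
    have h2' : ∀ p2, ((Z * Z.conjTranspose).mulVec (b i)) p2 = hM.eigenvalues i * b i p2 := by
      intro p2
      have := congrFun h2 p2
      rw [this]
      simp
    have h3 : ∑ p2, conj (b j p2) * ((Z * Z.conjTranspose).mulVec (b i)) p2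
        = hM.eigenvalues i * inner ℂ (b j) (b i) := by
      rw [PiLp.inner_apply, Finset.mul_sum]
      refine Finset.sum_congr rfl fun p2 _ => ?_
      rw [h2']
      simp only [RCLike.inner_apply]
      ring
    rw [h3, orthonormal_iff_ite.mp b.orthonormal j i]
    by_cases h : i = j
    · subst h; simp
    · rw [if_neg h, if_neg (Ne.symm h)]; simp
  refine ⟨fun i p => b i p, fun i p' => (‖w i‖⁻¹ : ℂ) * w i p', fun i => ‖w i‖,
    fun i => norm_nonneg _, ?_, ?_, ?_, ?_, ?_, ?_⟩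
  · intro i
    have h1 : ‖b i‖ = 1 := b.orthonormal.1 i
    have h2 : ‖b i‖ ^ 2 = ∑ p, ‖b i p‖ ^ 2 := EuclideanSpace.norm_sq_eq _
    rw [← h2, h1]; norm_num
  · intro i
    have h2 : ‖w i‖ ^ 2 = ∑ p, ‖w i p‖ ^ 2 := EuclideanSpace.norm_sq_eq _
    have h3 : ∑ p, ‖(‖w i‖⁻¹ : ℂ) * w i p‖ ^ 2 = (‖w i‖⁻¹) ^ 2 * ‖w i‖ ^ 2 := by
      rw [h2, Finset.mul_sum]
      refine Finset.sum_congr rfl fun p _ => ?_
      rw [norm_mul, mul_pow]
      congr 2
      simp
    rw [h3, ← mul_pow]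
    by_cases h : ‖w i‖ = 0
    · rw [h]; norm_num
    · rw [inv_mul_cancel₀ h]; norm_num
  · intro z
    have h := b.sum_sq_norm_inner_right (WithLp.toLp 2 z)
    have h2 : ‖(WithLp.toLp 2 z : EuclideanSpace ℂ (Fin n))‖ ^ 2 = ∑ p, ‖z p‖ ^ 2 :=
      EuclideanSpace.norm_sq_eq _
    rw [h2] at h
    rw [← h]
    refine le_of_eq (Finset.sum_congr rfl fun i _ => ?_)
    congr 2
    rw [PiLp.inner_apply]
    refine Finset.sum_congr rfl fun p _ => ?_
    simp only [RCLike.inner_apply]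
    ring
  · intro z
    have h := bessel_sub (E := EuclideanSpace ℂ (Fin m)) (fun i => ((‖w i‖⁻¹ : ℝ) : ℂ) • w i) ?_ ?_
      (WithLp.toLp 2 z)
    · have h2 : ‖(WithLp.toLp 2 z : EuclideanSpace ℂ (Fin m))‖ ^ 2 = ∑ p, ‖z p‖ ^ 2 :=
        EuclideanSpace.norm_sq_eq _
      rw [h2] at h
      refine le_trans (le_of_eq (Finset.sum_congr rfl fun i _ => ?_)) h
      congr 2
      rw [PiLp.inner_apply]
      refine Finset.sum_congr rfl fun p _ => ?_
      simp only [RCLike.inner_apply, PiLp.smul_apply, smul_eq_mul]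
      push_cast
      ring
    · intro i j hij
      rw [inner_smul_left, inner_smul_right, hinner i j, if_neg hij]
      simp
    · intro i
      rw [norm_smul]
      by_cases h : ‖w i‖ = 0
      · rw [h]; norm_num
      · simp only [Complex.norm_real, norm_inv, norm_norm]
        rw [inv_mul_cancel₀ h]
  · intro p p'
    have h1 : ∀ i, ((‖w i‖ : ℝ) : ℂ) * (b i p * ((‖w i‖⁻¹ : ℂ) * w i p')) = b i p * w i p' := by
      intro i
      by_cases h : ‖w i‖ = 0
      · have h' : w i = 0 := norm_eq_zero.mp h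
        have : w i p' = 0 := by rw [h']; rfl
        rw [this]; simp
      · have h'' : ((‖w i‖ : ℝ) : ℂ) ≠ 0 := by exact_mod_cast h
        field_simp
    rw [Finset.sum_congr rfl (fun i _ => h1 i)]
    have h2 := b.sum_repr' (WithLp.toLp 2 (fun p => ζ p p'))
    have h3 : (∑ i, (inner ℂ (b i) (WithLp.toLp 2 (fun p => ζ p p')) : ℂ) • b i) p = ζ p p' := by
      rw [h2]
    rw [← h3]
    rw [WithLp.ofLp_sum, Finset.sum_apply]
    refine Finset.sum_congr rfl fun i _ => ?_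
    rw [hwa]
    simp only [PiLp.smul_apply, smul_eq_mul, PiLp.inner_apply, RCLike.inner_apply]
    rw [mul_comm]
    congr 1
    refine Finset.sum_congr rfl fun p _ => ?_
    ring
  · have h1 : ∀ i, ‖w i‖ ^ 2 = ∑ p', ‖∑ p, conj (b i p) * ζ p p'‖ ^ 2 := by
      intro i
      rw [EuclideanSpace.norm_sq_eq]
    rw [Finset.sum_congr rfl (fun i _ => h1 i), Finset.sum_comm]
    rw [Finset.sum_comm (f := fun p p' => ‖ζ p p'‖ ^ 2)]
    refine Finset.sum_congr rfl fun p' _ => ?_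
    have h := b.sum_sq_norm_inner_right (WithLp.toLp 2 (fun p => ζ p p'))
    have h2 : ‖(WithLp.toLp 2 (fun p => ζ p p') : EuclideanSpace ℂ (Fin n))‖ ^ 2
        = ∑ p, ‖ζ p p'‖ ^ 2 := EuclideanSpace.norm_sq_eq _
    rw [h2] at h
    rw [← h]
    refine Finset.sum_congr rfl fun i _ => ?_
    congr 2
    rw [PiLp.inner_apply]
    refine Finset.sum_congr rfl fun p _ => ?_
    simp only [RCLike.inner_apply]
    ring

end Pool.Agent.Run7.h989.BL
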