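import Pool.Agent.Run7.h989.BL.Fourier
import Pool.Agent.Run7.h989.BL.Schmidt

set_option autoImplicit false

/-! The block estimate for the Blecher counterexample. -/

namespace Pool.Agent.Run7.h989.BL

open Finset Complex ComplexConjugate

theorem conv_sq {q : ℕ} [NeZero q] (F : ZMod q → ZMod q → ℂ) :
    ∑ s : ZMod q, (∑ k, F k (s - k)) * conj (∑ k', F k' (s - k'))
      = ∑ r : ZMod q, ∑ k : ZMod q, ∑ l : ZMod q, F k l * conj (F (k - r) (l + r)) := by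
  have hR : ∑ r : ZMod q, ∑ k : ZMod q, ∑ l : ZMod q, F k l * conj (F (k - r) (l + r))
      = ∑ k : ZMod q, ∑ l : ZMod q, F k l * conj (∑ k' : ZMod q, F k' (k + l - k')) := by
    rw [Finset.sum_comm]
    refine Finset.sum_congr rfl fun k _ => ?_
    rw [Finset.sum_comm]
    refine Finset.sum_congr rfl fun l _ => ?_
    rw [← Finset.mul_sum, ← map_sum]
    congr 2
    refine Fintype.sum_equiv (Equiv.subLeft k) _ _ (fun r => ?_)
    simp only [Equiv.subLeft_apply]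
    congr 1
    ring
  rw [hR]
  have hL : ∑ s : ZMod q, (∑ k, F k (s - k)) * conj (∑ k', F k' (s - k'))
      = ∑ k : ZMod q, ∑ s : ZMod q, F k (s - k) * conj (∑ k', F k' (s - k')) := by
    rw [Finset.sum_comm]
    refine Finset.sum_congr rfl fun s _ => ?_
    rw [Finset.sum_mul]
  rw [hL]
  refine Finset.sum_congr rfl fun k _ => ?_
  refine (Fintype.sum_equiv (Equiv.addLeft k) _ _ (fun l => ?_)).symm
  simp only [Equiv.coe_addLeft]
  congr 2
  ring

variable {q : ℕ} [NeZero q]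

/-- column bound -/
def ColB {n : ℕ} (X : ZMod q → Fin n → Fin n → ℂ) : Prop :=
  ∀ v : Fin n → ℂ, ∑ k, ∑ i, ‖∑ i', X k i i' * v i'‖ ^ 2 ≤ ∑ i, ‖v i‖ ^ 2

/-- row bound -/
def RowB {n : ℕ} (X : ZMod q → Fin n → Fin n → ℂ) : Prop :=
  ∀ v : Fin n → ℂ, ∑ k, ∑ i, ‖∑ i', X k i' i * v i'‖ ^ 2 ≤ ∑ i, ‖v i‖ ^ 2

theorem SG_bound {n : ℕ} {ι : Type*} [Fintype ι] (X : ZMod q → Fin n → Fin n → ℂ)
    (HC : ColB X) (HR : RowB X) (u : ι → Fin n → ℂ) (lam : ι → ℝ) (hl : ∀ i, 0 ≤ lam i)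
    (hu1 : ∀ i, ∑ p, ‖u i p‖ ^ 2 ≤ 1)
    (hu2 : ∀ z : Fin n → ℂ, ∑ i, ‖∑ p, conj (u i p) * z p‖ ^ 2 ≤ ∑ p, ‖z p‖ ^ 2) :
    ∑ i, ∑ j, lam i * lam j * ∑ k : ZMod q, ∑ k' : ZMod q,
      ‖∑ a, (∑ p, X k p a * u i p) * conj (∑ p, X k' p a * u j p)‖ ^ 2 ≤ ∑ i, lam i ^ 2 := by
  set G : ZMod q → ZMod q → ι → ι → ℂ := fun k k' i j =>
    ∑ a, (∑ p, X k p a * u i p) * conj (∑ p, X k' p a * u j p) with hG
  have hsymm : ∀ k k' i j, ‖G k k' i j‖ = ‖G k' k j i‖ := by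
    intro k k' i j
    have : G k' k j i = conj (G k k' i j) := by
      simp only [hG, map_sum, map_mul, Complex.conj_conj]
      refine Finset.sum_congr rfl fun a _ => ?_
      rw [mul_comm]
    rw [this, RCLike.norm_conj]
  set T : ι → ι → ℝ := fun i j => ∑ k : ZMod q, ∑ k' : ZMod q, ‖G k k' i j‖ ^ 2 with hT
  have hTs : ∀ i j, T i j = T j i := by
    intro i j
    simp only [hT]
    rw [Finset.sum_comm]
    refine Finset.sum_congr rfl fun k _ => Finset.sum_congr rfl fun k' _ => ?_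
    rw [hsymm]
  have hT0 : ∀ i j, 0 ≤ T i j := fun i j =>
    Finset.sum_nonneg fun k _ => Finset.sum_nonneg fun k' _ => by positivity
  have hrow : ∀ i, ∑ j, T i j ≤ 1 := by
    intro i
    have h1 : ∑ j, T i j = ∑ k : ZMod q, ∑ k' : ZMod q, ∑ j, ‖G k k' i j‖ ^ 2 := by
      simp only [hT]
      rw [Finset.sum_comm]
      refine Finset.sum_congr rfl fun k _ => ?_
      rw [Finset.sum_comm]
    rw [h1]
    have h2 : ∀ k k', ∑ j, ‖G k k' i j‖ ^ 2
        ≤ ∑ p, ‖∑ a, X k' p a * conj (∑ p', X k p' a * u i p')‖ ^ 2 := by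
      intro k k'
      have h3 := hu2 (fun p => ∑ a, conj (X k' p a) * (∑ p', X k p' a * u i p'))
      have h4 : ∀ j, ∑ p, conj (u j p) * (∑ a, conj (X k' p a) * (∑ p', X k p' a * u i p'))
          = G k k' i j := by
        intro j
        simp only [hG]
        simp_rw [Finset.mul_sum]
        rw [Finset.sum_comm]
        refine Finset.sum_congr rfl fun a _ => ?_
        rw [map_sum, Finset.mul_sum]
        refine Finset.sum_congr rfl fun p _ => ?_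
        rw [map_mul, Finset.sum_mul]
        refine Finset.sum_congr rfl fun p' _ => ?_
        ring
      rw [Finset.sum_congr rfl (fun j _ => by rw [h4 j])] at h3
      refine h3.trans (le_of_eq (Finset.sum_congr rfl fun p _ => ?_))
      congr 1
      rw [← RCLike.norm_conj]
      congr 1
      rw [map_sum]
      refine Finset.sum_congr rfl fun a _ => ?_
      rw [map_mul, Complex.conj_conj]
    calc ∑ k : ZMod q, ∑ k' : ZMod q, ∑ j, ‖G k k' i j‖ ^ 2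
        ≤ ∑ k : ZMod q, ∑ k' : ZMod q,
            ∑ p, ‖∑ a, X k' p a * conj (∑ p', X k p' a * u i p')‖ ^ 2 :=
          Finset.sum_le_sum fun k _ => Finset.sum_le_sum fun k' _ => h2 k k'
      _ ≤ ∑ k : ZMod q, ∑ a, ‖∑ p', X k p' a * u i p'‖ ^ 2 := by
          refine Finset.sum_le_sum fun k _ => ?_
          refine (HC (fun a => conj (∑ p', X k p' a * u i p'))).trans (le_of_eq ?_)
          refine Finset.sum_congr rfl fun a _ => ?_
          rw [RCLike.norm_conj]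
      _ ≤ ∑ p, ‖u i p‖ ^ 2 := HR (u i)
      _ ≤ 1 := hu1 i
  have h1 : ∑ i, ∑ j, lam i * lam j * T i j ≤ ∑ i, ∑ j, lam i ^ 2 * T i j := by
    have h2 : ∑ i, ∑ j, lam i * lam j * T i j
        ≤ ∑ i, ∑ j, ((lam i ^ 2 * T i j) / 2 + (lam j ^ 2 * T i j) / 2) := by
      refine Finset.sum_le_sum fun i _ => Finset.sum_le_sum fun j _ => ?_
      have h3 : lam i * lam j ≤ (lam i ^ 2 + lam j ^ 2) / 2 := by
        nlinarith [sq_nonneg (lam i - lam j)]
      calc lam i * lam j * T i j ≤ (lam i ^ 2 + lam j ^ 2) / 2 * T i j :=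
            mul_le_mul_of_nonneg_right h3 (hT0 i j)
        _ = _ := by ring
    have h4 : ∑ i, ∑ j, (lam j ^ 2 * T i j) / 2 = ∑ i, ∑ j, (lam i ^ 2 * T i j) / 2 := by
      rw [Finset.sum_comm]
      refine Finset.sum_congr rfl fun i _ => Finset.sum_congr rfl fun j _ => ?_
      rw [hTs]
    have h5 : ∑ i, ∑ j, ((lam i ^ 2 * T i j) / 2 + (lam j ^ 2 * T i j) / 2)
        = ∑ i, ∑ j, lam i ^ 2 * T i j := by
      simp_rw [Finset.sum_add_distrib]
      rw [h4, ← Finset.sum_add_distrib]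
      refine Finset.sum_congr rfl fun i _ => ?_
      rw [← Finset.sum_add_distrib]
      refine Finset.sum_congr rfl fun j _ => ?_
      ring
    linarith
  calc ∑ i, ∑ j, lam i * lam j * T i j ≤ ∑ i, ∑ j, lam i ^ 2 * T i j := h1
    _ = ∑ i, lam i ^ 2 * ∑ j, T i j := by
        refine Finset.sum_congr rfl fun i _ => ?_
        rw [Finset.mul_sum]
    _ ≤ ∑ i, lam i ^ 2 := by
        refine Finset.sum_le_sum fun i _ => ?_
        exact mul_le_of_le_one_right (by positivity) (hrow i)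

theorem D0_bound {n m : ℕ} (X : ZMod q → Fin n → Fin n → ℂ) (Y : ZMod q → Fin m → Fin m → ℂ)
    (HRX : RowB X) (HRY : RowB Y) (ζ : Fin n → Fin m → ℂ) :
    ∑ k, ∑ l, ∑ a, ∑ b, ‖∑ p, X k p a * ∑ p', Y l p' b * ζ p p'‖ ^ 2
      ≤ ∑ p, ∑ p', ‖ζ p p'‖ ^ 2 := by
  have h1 : ∑ k, ∑ l, ∑ a, ∑ b, ‖∑ p, X k p a * ∑ p', Y l p' b * ζ p p'‖ ^ 2
      = ∑ l, ∑ b, ∑ k, ∑ a, ‖∑ p, X k p a * ∑ p', Y l p' b * ζ p p'‖ ^ 2 := by
    rw [Finset.sum_comm]
    refine Finset.sum_congr rfl fun l _ => ?_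
    rw [Finset.sum_comm]
    rw [Finset.sum_congr rfl (fun a _ => Finset.sum_comm)]
    rw [Finset.sum_comm]
    refine Finset.sum_congr rfl fun b _ => ?_
    rw [Finset.sum_comm]
  rw [h1]
  calc ∑ l, ∑ b, ∑ k, ∑ a, ‖∑ p, X k p a * ∑ p', Y l p' b * ζ p p'‖ ^ 2
      ≤ ∑ l, ∑ b, ∑ p, ‖∑ p', Y l p' b * ζ p p'‖ ^ 2 :=
        Finset.sum_le_sum fun l _ => Finset.sum_le_sum fun b _ =>
          HRX (fun p => ∑ p', Y l p' b * ζ p p')
    _ = ∑ p, ∑ l, ∑ b, ‖∑ p', Y l p' b * ζ p p'‖ ^ 2 := by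
        rw [Finset.sum_comm (s := (Finset.univ : Finset (Fin n)))]
        refine Finset.sum_congr rfl fun l _ => ?_
        rw [Finset.sum_comm]
    _ ≤ ∑ p, ∑ p', ‖ζ p p'‖ ^ 2 := Finset.sum_le_sum fun p _ => HRY (fun p' => ζ p p')

end Pool.Agent.Run7.h989.BL
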