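import Mathlib

set_option autoImplicit false

/-! Fourier analysis on `ZMod q` for the Blecher counterexample. -/

namespace Pool.Agent.Run7.h989.BL

open Finset Complex ComplexConjugate

variable {q : ℕ} [NeZero q]

/-- the standard additive character -/
noncomputable def ee (x : ZMod q) : ℂ := ZMod.stdAddChar x

theorem ee_zero : ee (0 : ZMod q) = 1 := by
  simp [ee]

theorem ee_add (x y : ZMod q) : ee (x + y) = ee x * ee y := by
  simp [ee, AddChar.map_add_eq_mul]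

theorem norm_ee (x : ZMod q) : ‖ee x‖ = 1 := by
  rw [ee, ZMod.stdAddChar_apply]
  exact Circle.norm_coe _

theorem ee_mul_neg (x : ZMod q) : ee x * ee (-x) = 1 := by
  rw [← ee_add, add_neg_cancel, ee_zero]

theorem conj_ee (x : ZMod q) : conj (ee x) = ee (-x) := by
  have h1 : ee x * conj (ee x) = 1 := by
    rw [Complex.mul_conj, Complex.normSq_eq_norm_sq, norm_ee]
    simp
  have h2 := ee_mul_neg x
  have h3 : ee x ≠ 0 := by
    intro h
    rw [h] at h1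
    simp at h1
  exact mul_left_cancel₀ h3 (h1.trans h2.symm)

theorem sum_ee (c : ZMod q) : ∑ x : ZMod q, ee (x * c) = if c = 0 then (q : ℂ) else 0 := by
  have := AddChar.sum_mulShift (R := ZMod q) (R' := ℂ) c (ZMod.isPrimitive_stdAddChar q)
  simpa [ee] using this

/-- Parseval. -/
theorem parseval (v : ZMod q → ℂ) :
    ∑ k : ZMod q, ‖∑ x : ZMod q, ee (k * x) * v x‖ ^ 2 = q * ∑ x : ZMod q, ‖v x‖ ^ 2 := by
  have key : (((∑ k : ZMod q, ‖∑ x : ZMod q, ee (k * x) * v x‖ ^ 2 : ℝ)) : ℂ)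
      = ((q * ∑ x : ZMod q, ‖v x‖ ^ 2 : ℝ) : ℂ) := by
    push_cast
    have h1 : ∀ k : ZMod q, ((‖∑ x : ZMod q, ee (k * x) * v x‖ : ℂ)) ^ 2
        = ∑ x : ZMod q, ∑ y : ZMod q, ee (k * (x - y)) * (v x * conj (v y)) := by
      intro k
      rw [← Complex.mul_conj', map_sum, Finset.sum_mul]
      refine Finset.sum_congr rfl fun x _ => ?_
      rw [Finset.mul_sum]
      refine Finset.sum_congr rfl fun y _ => ?_
      rw [map_mul, conj_ee]
      have : ee (k * (x - y)) = ee (k * x) * ee (-(k * y)) := by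
        rw [← ee_add]; congr 1; ring
      rw [this]; ring
    rw [Finset.sum_congr rfl (fun k _ => h1 k)]
    rw [Finset.sum_comm]
    rw [Finset.mul_sum]
    refine Finset.sum_congr rfl fun x _ => ?_
    rw [Finset.sum_comm]
    have h2 : ∀ y : ZMod q, ∑ k : ZMod q, ee (k * (x - y)) * (v x * conj (v y))
        = if y = x then (q : ℂ) * (v x * conj (v y)) else 0 := by
      intro y
      rw [← Finset.sum_mul, sum_ee]
      by_cases h : y = x
      · subst h; simp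
      · have : x - y ≠ 0 := fun h' => h (sub_eq_zero.mp h').symm
        simp [this, h]
    rw [Finset.sum_congr rfl (fun y _ => h2 y)]
    rw [Finset.sum_ite_eq' Finset.univ x]
    simp [Complex.mul_conj']
  exact_mod_cast key

/-- Parseval with a nonzero multiplier in a field. -/
theorem parseval_mul [Fact q.Prime] (c : ZMod q) (hc : c ≠ 0) (v : ZMod q → ℂ) :
    ∑ k : ZMod q, ‖∑ x : ZMod q, ee (c * k * x) * v x‖ ^ 2 = q * ∑ x : ZMod q, ‖v x‖ ^ 2 := by
  have h := parseval v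
  rw [← h]
  exact Fintype.sum_equiv (Equiv.mulLeft₀ c hc) _ _ (fun k => by simp)

theorem two_mul_norm_sum_le {ι : Type*} (s : Finset ι) (x z : ι → ℂ) (θ : ℝ) (hθ : 0 < θ) :
    2 * ‖∑ k ∈ s, x k * z k‖ ≤ θ * ∑ k ∈ s, ‖x k‖ ^ 2 + θ⁻¹ * ∑ k ∈ s, ‖z k‖ ^ 2 := by
  have h1 : ‖∑ k ∈ s, x k * z k‖ ≤ ∑ k ∈ s, ‖x k‖ * ‖z k‖ :=
    (norm_sum_le _ _).trans (le_of_eq (Finset.sum_congr rfl fun k _ => norm_mul _ _))
  have h2 : 2 * ∑ k ∈ s, ‖x k‖ * ‖z k‖ ≤ θ * ∑ k ∈ s, ‖x k‖ ^ 2 + θ⁻¹ * ∑ k ∈ s, ‖z k‖ ^ 2 := by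
    rw [Finset.mul_sum, Finset.mul_sum, Finset.mul_sum, ← Finset.sum_add_distrib]
    refine Finset.sum_le_sum fun k _ => ?_
    have h3 : 0 ≤ θ⁻¹ * (θ * ‖x k‖ - ‖z k‖) ^ 2 := by positivity
    have h4 : θ⁻¹ * (θ * ‖x k‖ - ‖z k‖) ^ 2
        = θ * ‖x k‖ ^ 2 + θ⁻¹ * ‖z k‖ ^ 2 - 2 * (‖x k‖ * ‖z k‖) := by
      field_simp
      ring
    linarith
  linarith

/-- the bilinear Fourier bound -/
theorem bilin_bound [Fact q.Prime] (c : ZMod q) (hc : c ≠ 0) (x y : ZMod q → ℂ) :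
    ‖∑ k : ZMod q, ∑ l : ZMod q, ee (c * k * l) * (x k * y l)‖
      ≤ (Real.sqrt q / 2) * (∑ k, ‖x k‖ ^ 2 + ∑ l, ‖y l‖ ^ 2) := by
  have hq : (0 : ℝ) < q := by exact_mod_cast Nat.pos_of_ne_zero (NeZero.ne q)
  have hs : 0 < Real.sqrt q := Real.sqrt_pos.mpr hq
  have h1 := two_mul_norm_sum_le Finset.univ x
    (fun k : ZMod q => ∑ l : ZMod q, ee (c * k * l) * y l) (Real.sqrt q) hs
  rw [parseval_mul c hc y] at h1
  have h2 : ∑ k : ZMod q, ∑ l : ZMod q, ee (c * k * l) * (x k * y l)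
      = ∑ k : ZMod q, x k * ∑ l : ZMod q, ee (c * k * l) * y l := by
    refine Finset.sum_congr rfl fun k _ => ?_
    rw [Finset.mul_sum]
    refine Finset.sum_congr rfl fun l _ => ?_
    ring
  rw [h2]
  have h3 : (Real.sqrt q)⁻¹ * (q * ∑ l : ZMod q, ‖y l‖ ^ 2) = Real.sqrt q * ∑ l : ZMod q, ‖y l‖ ^ 2 := by
    rw [← mul_assoc]
    congr 1
    field_simp
    rw [Real.sq_sqrt hq.le]
  rw [h3] at h1
  linarith

/-- the quadratic bound -/
theorem quad_bound [Fact q.Prime] (c : ZMod q) (hc : c ≠ 0) (w : ZMod q → ℂ) :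
    ∑ s : ZMod q, ‖∑ k : ZMod q, ee (c * k ^ 2 * s) * w k‖ ^ 2 ≤ 2 * q * ∑ k, ‖w k‖ ^ 2 := by
  classical
  set W : ZMod q → ℂ := fun m => ∑ k ∈ Finset.univ.filter (fun k : ZMod q => k ^ 2 = m), w k with hW
  have h1 : ∀ s : ZMod q, ∑ k : ZMod q, ee (c * k ^ 2 * s) * w k
      = ∑ m : ZMod q, ee (c * s * m) * W m := by
    intro s
    rw [← Finset.sum_fiberwise Finset.univ (fun k : ZMod q => k ^ 2)]
    refine Finset.sum_congr rfl fun m _ => ?_
    rw [hW, Finset.mul_sum]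
    refine Finset.sum_congr rfl fun k hk => ?_
    rw [(Finset.mem_filter.mp hk).2]
    congr 2
    ring
  rw [Finset.sum_congr rfl (fun s _ => by rw [h1 s]), parseval_mul c hc W]
  have h2 : ∀ m : ZMod q, ‖W m‖ ^ 2
      ≤ 2 * ∑ k ∈ Finset.univ.filter (fun k : ZMod q => k ^ 2 = m), ‖w k‖ ^ 2 := by
    intro m
    have hcard : (Finset.univ.filter (fun k : ZMod q => k ^ 2 = m)).card ≤ 2 := by
      by_contra hcon
      rw [not_le] at hcon
      obtain ⟨a, ha, b, hb, d, hd, hab, had, hbd⟩ := Finset.two_lt_card.mp hcon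
      rw [Finset.mem_filter] at ha hb hd
      have e1 : (a - b) * (a + b) = 0 := by
        have : a ^ 2 - b ^ 2 = 0 := by rw [ha.2, hb.2]; ring
        linear_combination this
      have e2 : (a - d) * (a + d) = 0 := by
        have : a ^ 2 - d ^ 2 = 0 := by rw [ha.2, hd.2]; ring
        linear_combination this
      have e3 : a + b = 0 := by
        rcases mul_eq_zero.mp e1 with h | h
        · exact absurd (sub_eq_zero.mp h) hab
        · exact h
      have e4 : a + d = 0 := by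
        rcases mul_eq_zero.mp e2 with h | h
        · exact absurd (sub_eq_zero.mp h) had
        · exact h
      apply hbd
      have : b = -a := by linear_combination e3
      have h' : d = -a := by linear_combination e4
      rw [this, h']
    have h3 : ‖W m‖ ^ 2 ≤ (∑ k ∈ Finset.univ.filter (fun k : ZMod q => k ^ 2 = m), ‖w k‖) ^ 2 := by
      gcongr
      exact norm_sum_le _ _
    have h4 := sq_sum_le_card_mul_sum_sq
      (s := Finset.univ.filter (fun k : ZMod q => k ^ 2 = m)) (f := fun k => ‖w k‖)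
    have h5 : (0 : ℝ) ≤ ∑ k ∈ Finset.univ.filter (fun k : ZMod q => k ^ 2 = m), ‖w k‖ ^ 2 :=
      Finset.sum_nonneg fun k _ => by positivity
    have h6 : ((Finset.univ.filter (fun k : ZMod q => k ^ 2 = m)).card : ℝ) ≤ 2 := by
      exact_mod_cast hcard
    calc ‖W m‖ ^ 2 ≤ _ := h3
      _ ≤ _ := h4
      _ ≤ _ := mul_le_mul_of_nonneg_right h6 h5
  have h3 : ∑ m : ZMod q, ‖W m‖ ^ 2 ≤ 2 * ∑ k : ZMod q, ‖w k‖ ^ 2 := by
    calc ∑ m : ZMod q, ‖W m‖ ^ 2
        ≤ ∑ m : ZMod q, 2 * ∑ k ∈ Finset.univ.filter (fun k : ZMod q => k ^ 2 = m), ‖w k‖ ^ 2 :=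
          Finset.sum_le_sum fun m _ => h2 m
      _ = 2 * ∑ k : ZMod q, ‖w k‖ ^ 2 := by
          rw [← Finset.mul_sum, Finset.sum_fiberwise]
  have hq : (0 : ℝ) ≤ q := by positivity
  calc (q : ℝ) * ∑ m : ZMod q, ‖W m‖ ^ 2 ≤ q * (2 * ∑ k : ZMod q, ‖w k‖ ^ 2) :=
        mul_le_mul_of_nonneg_left h3 hq
    _ = 2 * q * ∑ k, ‖w k‖ ^ 2 := by ring

end Pool.Agent.Run7.h989.BL
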