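import Pool.Agent.Run7.h989.BL.Phi

set_option autoImplicit false

/-! The lower bound of the Blecher counterexample. -/

namespace Pool.Agent.Run7.h989.BL

open Finset Complex ComplexConjugate
open scoped CStarMatrix

/-- a character of a block, as a function -/
noncomputable def chf (q j : ℕ) [NeZero q] (k : ZMod q) (y : ℕ × ℕ) : ℂ :=
  if y.1 = j ∧ y.2 < q then ee ((y.2 : ZMod q) * k) else 0

theorem norm_chf_le (q j : ℕ) [NeZero q] (k : ZMod q) (y : ℕ × ℕ) : ‖chf q j k y‖ ≤ 1 := by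
  unfold chf
  split_ifs
  · rw [norm_ee]
  · simp

/-- a character of a block -/
noncomputable def ch (q j : ℕ) [NeZero q] (k : ZMod q) : AA :=
  BoundedContinuousFunction.ofNormedAddCommGroupDiscrete (chf q j k) 1 (norm_chf_le q j k)

theorem ch_apply (q j : ℕ) [NeZero q] (k : ZMod q) (y : ℕ × ℕ) : ch q j k y = chf q j k y := rfl

theorem hat_ch (q j : ℕ) [NeZero q] (k s : ZMod q) :
    hat q j k (ch q j s) = if s = k then 1 else 0 := by
  have hq : (q : ℂ) ≠ 0 := by exact_mod_cast NeZero.ne q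
  rw [hat_apply]
  have h1 : ∀ β : ZMod q, ee ((-1) * k * β) * ch q j s (j, β.val) = ee (β * (s - k)) := by
    intro β
    rw [ch_apply, chf, if_pos ⟨rfl, ZMod.val_lt β⟩, ← ee_add]
    congr 1
    simp only [ZMod.natCast_val, ZMod.cast_id', id_eq]
    ring
  rw [Finset.sum_congr rfl (fun β _ => h1 β), sum_ee]
  by_cases h : s = k
  · rw [if_pos h, if_pos (sub_eq_zero.mpr h), inv_mul_cancel₀ hq]
  · rw [if_neg h, if_neg (sub_ne_zero.mpr h), mul_zero]

theorem hat_ch_ne (q q' j j' : ℕ) [NeZero q] [NeZero q'] (hj : j' ≠ j) (k : ZMod q')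
    (s : ZMod q) : hat q' j' k (ch q j s) = 0 := by
  rw [hat_apply]
  rw [Finset.sum_eq_zero]
  · rw [mul_zero]
  · intro β _
    rw [ch_apply, chf, if_neg (fun h => hj h.1), mul_zero]

section

variable {H : Type*} [NormedAddCommGroup H] [InnerProductSpace ℂ H]

theorem blk_ch (q j : ℕ) [NeZero q] (e : ℕ → H) (k l : ZMod q) :
    blk q j e (ch q j k) (ch q j l) = ee (gg k l) • rk e (k + l).val := by
  rw [blk_apply]
  rw [Finset.sum_eq_single (k + l)]
  · congr 1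
    rw [Finset.sum_eq_single k]
    · rw [hat_ch, hat_ch, if_pos rfl, add_sub_cancel_left, if_pos rfl]
      ring
    · intro k' _ hk'
      rw [hat_ch, if_neg (Ne.symm hk')]
      ring
    · intro h; exact absurd (Finset.mem_univ k) h
  · intro s _ hs
    rw [Finset.sum_eq_zero, zero_smul]
    intro k' _
    by_cases h1 : k = k'
    · have h2 : l ≠ s - k' := by
        intro h3
        apply hs
        rw [h3, h1]; ring
      rw [hat_ch, hat_ch, if_neg h2]
      ring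
    · rw [hat_ch, if_neg h1]
      ring
  · intro h; exact absurd (Finset.mem_univ _) h

theorem blk_ch_ne (q q' j j' : ℕ) [NeZero q] [NeZero q'] (hj : j' ≠ j) (e : ℕ → H) (k : ZMod q)
    (b : AA) : blk q' j' e (ch q j k) b = 0 := by
  rw [blk_apply]
  refine Finset.sum_eq_zero fun s _ => ?_
  rw [Finset.sum_eq_zero, zero_smul]
  intro k' _
  rw [hat_ch_ne q q' j j' hj]
  ring

end

section

variable [PartialOrder AA] [StarOrderedRing AA]
variable {H : Type*} [NormedAddCommGroup H] [InnerProductSpace ℂ H]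

theorem phi_ch [CompleteSpace H] (e : ℕ → H) (he : Orthonormal ℂ e) (j : ℕ)
    (k l : ZMod (qq j)) :
    phi e he (ch (qq j) j k) (ch (qq j) j l)
      = ((cc j : ℝ) : ℂ) • (ee (gg k l) • rk e (k + l).val) := by
  rw [phi_apply, tsum_eq_single j]
  · rw [tm_apply, blk_ch]
  · intro j' hj'
    rw [tm_apply, blk_ch_ne (qq j) (qq j') j j' hj', smul_zero]

theorem haag_lower (q j : ℕ) [NeZero q] [Fact q.Prime] (e : ℕ → H) (he : Orthonormal ℂ e)
    (ψ : AA →ₗ[ℂ] AA →ₗ[ℂ] (H →L[ℂ] H)) (C : ℝ)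
    (hψ : ∀ (n : ℕ) (a : CStarMatrix (Fin n) (Fin n) AA)
            (b : CStarMatrix (Fin n) (Fin n) AA) (x : Fin n → H),
            ∑ i : Fin n, ‖∑ j : Fin n, ∑ k : Fin n, ψ (a i k) (b k j) (x j)‖ ^ 2
              ≤ (C * ‖a‖ * ‖b‖) ^ 2 * ∑ j : Fin n, ‖x j‖ ^ 2)
    (c : ZMod q) (hc : c ≠ 0) (α γ : ZMod q → ZMod q) :
    ‖∑ s : ZMod q, ∑ k : ZMod q, ee (α k + γ s + c * k ^ 2 * s) •
      ψ (ch q j k) (ch q j (s - k)) (e s.val)‖ ≤ |C| * Real.sqrt 2 * (q * Real.sqrt q) := by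
  have hq : (0 : ℝ) < q := by exact_mod_cast Nat.pos_of_ne_zero (NeZero.ne q)
  have hsq : 0 < Real.sqrt q := Real.sqrt_pos.mpr hq
  have hs2 : Real.sqrt q ^ 2 = q := Real.sq_sqrt hq.le
  set σ : Fin q ≃ ZMod q := (ZMod.finEquiv q).toEquiv with hσ
  set t : ℂ := (((Real.sqrt q)⁻¹ : ℝ) : ℂ) with ht
  have htn : ‖t‖ ^ 2 = (q : ℝ)⁻¹ := by
    rw [ht, Complex.norm_real, Real.norm_of_nonneg (by positivity), inv_pow, hs2]
  set i0 : Fin q := σ.symm 0 with hi0
  set a : CStarMatrix (Fin q) (Fin q) AA := CStarMatrix.ofMatrix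
    (Matrix.of fun i k => if i = i0 then t • ch q j (σ k) else 0) with ha
  set b : CStarMatrix (Fin q) (Fin q) AA := CStarMatrix.ofMatrix
    (Matrix.of fun k s => (t * ee (α (σ k) + γ (σ s) + c * (σ k) ^ 2 * (σ s))) •
      ch q j (σ s - σ k)) with hb
  have haa : ∀ i k, a i k = if i = i0 then t • ch q j (σ k) else 0 := fun i k => rfl
  have hbb : ∀ k s, b k s = (t * ee (α (σ k) + γ (σ s) + c * (σ k) ^ 2 * (σ s))) •
      ch q j (σ s - σ k) := fun k s => rfl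
  clear_value a b
  have hna : ‖a‖ ≤ 1 := by
    refine norm_le_of_pointwise a 1 zero_le_one (fun y v => ?_)
    have h1 : ∀ k : Fin q, ‖∑ i, v i * a i k y‖ ^ 2 ≤ (q : ℝ)⁻¹ * ‖v i0‖ ^ 2 := by
      intro k
      rw [Finset.sum_eq_single i0]
      · rw [haa, if_pos rfl, norm_mul, mul_pow, BoundedContinuousFunction.smul_apply, smul_eq_mul,
          norm_mul, mul_pow, htn, mul_comm]
        have h2 : ‖ch q j (σ k) y‖ ^ 2 ≤ 1 := pow_le_one₀ (norm_nonneg _) (norm_chf_le q j (σ k) y)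
        have h3 : (q : ℝ)⁻¹ * ‖ch q j (σ k) y‖ ^ 2 ≤ (q : ℝ)⁻¹ :=
          mul_le_of_le_one_right (by positivity) h2
        exact mul_le_mul_of_nonneg_right h3 (by positivity)
      · intro i _ hi
        rw [haa, if_neg hi]
        simp
      · intro h; exact absurd (Finset.mem_univ i0) h
    calc ∑ k, ‖∑ i, v i * a i k y‖ ^ 2 ≤ ∑ _k : Fin q, (q : ℝ)⁻¹ * ‖v i0‖ ^ 2 :=
          Finset.sum_le_sum fun k _ => h1 k
      _ = ‖v i0‖ ^ 2 := by
          rw [Finset.sum_const, Finset.card_univ, Fintype.card_fin, nsmul_eq_mul, ← mul_assoc,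
            mul_inv_cancel₀ hq.ne', one_mul]
      _ ≤ ∑ i, ‖v i‖ ^ 2 :=
          Finset.single_le_sum (f := fun i => ‖v i‖ ^ 2) (fun i _ => by positivity)
            (Finset.mem_univ i0)
      _ = 1 ^ 2 * ∑ i, ‖v i‖ ^ 2 := by ring
  have hnb : ‖b‖ ≤ Real.sqrt 2 := by
    refine norm_le_of_pointwise b _ (Real.sqrt_nonneg _) (fun y v => ?_)
    rw [Real.sq_sqrt (by norm_num)]
    by_cases hy : y.1 = j ∧ y.2 < q
    · set β : ZMod q := (y.2 : ZMod q) with hβ
      have h1 : ∀ s : Fin q, ∑ k, v k * b k s y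
          = (t * ee (γ (σ s) + β * σ s)) * ∑ k : ZMod q, ee (c * k ^ 2 * (σ s)) *
            (v (σ.symm k) * ee (α k - β * k)) := by
        intro s
        rw [Finset.mul_sum]
        refine Fintype.sum_equiv σ _ _ (fun k => ?_)
        rw [hbb, BoundedContinuousFunction.smul_apply, smul_eq_mul, ch_apply, chf, if_pos hy,
          σ.symm_apply_apply]
        have h2 : ee (α (σ k) + γ (σ s) + c * (σ k) ^ 2 * (σ s)) * ee ((y.2 : ZMod q) * (σ s - σ k))
            = ee (γ (σ s) + β * σ s) * (ee (c * (σ k) ^ 2 * (σ s)) * ee (α (σ k) - β * σ k)) := by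
          rw [← ee_add, ← ee_add, ← ee_add]
          congr 1
          rw [hβ]
          ring
        calc v k * (t * ee (α (σ k) + γ (σ s) + c * (σ k) ^ 2 * (σ s)) *
              ee ((y.2 : ZMod q) * (σ s - σ k)))
            = v k * t * (ee (α (σ k) + γ (σ s) + c * (σ k) ^ 2 * (σ s)) *
              ee ((y.2 : ZMod q) * (σ s - σ k))) := by ring
          _ = _ := by rw [h2]; ring
      have h3 : ∀ s : Fin q, ‖∑ k, v k * b k s y‖ ^ 2
          = (q : ℝ)⁻¹ * ‖∑ k : ZMod q, ee (c * k ^ 2 * (σ s)) *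
            (v (σ.symm k) * ee (α k - β * k))‖ ^ 2 := by
        intro s
        rw [h1, norm_mul, norm_mul, norm_ee, mul_one, mul_pow, htn]
      rw [Finset.sum_congr rfl (fun s _ => h3 s), ← Finset.mul_sum]
      have h4 : ∑ s : Fin q, ‖∑ k : ZMod q, ee (c * k ^ 2 * (σ s)) *
            (v (σ.symm k) * ee (α k - β * k))‖ ^ 2
          = ∑ s : ZMod q, ‖∑ k : ZMod q, ee (c * k ^ 2 * s) *
            (v (σ.symm k) * ee (α k - β * k))‖ ^ 2 :=
        Fintype.sum_equiv σ _ _ (fun s => rfl)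
      rw [h4]
      have h5 := quad_bound c hc (fun k => v (σ.symm k) * ee (α k - β * k))
      have h6 : ∑ k : ZMod q, ‖v (σ.symm k) * ee (α k - β * k)‖ ^ 2 = ∑ k : Fin q, ‖v k‖ ^ 2 := by
        refine Fintype.sum_equiv σ.symm _ _ (fun k => ?_)
        rw [norm_mul, norm_ee, mul_one]
      rw [h6] at h5
      calc (q : ℝ)⁻¹ * _ ≤ (q : ℝ)⁻¹ * (2 * q * ∑ k : Fin q, ‖v k‖ ^ 2) :=
            mul_le_mul_of_nonneg_left h5 (by positivity)
        _ = 2 * ∑ k : Fin q, ‖v k‖ ^ 2 := by field_simp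
    · have h1 : ∀ s : Fin q, ∑ k, v k * b k s y = 0 := by
        intro s
        refine Finset.sum_eq_zero fun k _ => ?_
        rw [hbb, BoundedContinuousFunction.smul_apply, smul_eq_mul, ch_apply, chf, if_neg hy]
        ring
      rw [Finset.sum_eq_zero (fun s _ => by rw [h1 s]; simp)]
      positivity
  have h := hψ q a b (fun s => e (σ s).val)
  have hx : ∑ s : Fin q, ‖e (σ s).val‖ ^ 2 = q := by
    rw [Finset.sum_congr rfl (fun s _ => by rw [he.1 (σ s).val])]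
    simp
  rw [hx] at h
  have h1 : ‖∑ s : Fin q, ∑ k : Fin q, ψ (a i0 k) (b k s) (e (σ s).val)‖ ^ 2
      ≤ (C * ‖a‖ * ‖b‖) ^ 2 * q := by
    refine le_trans ?_ h
    exact Finset.single_le_sum
      (f := fun i => ‖∑ s : Fin q, ∑ k : Fin q, ψ (a i k) (b k s) (e (σ s).val)‖ ^ 2)
      (fun i _ => by positivity) (Finset.mem_univ i0)
  have h2 : ∑ s : Fin q, ∑ k : Fin q, ψ (a i0 k) (b k s) (e (σ s).val)
      = (t * t) • ∑ s : ZMod q, ∑ k : ZMod q, ee (α k + γ s + c * k ^ 2 * s) •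
      ψ (ch q j k) (ch q j (s - k)) (e s.val) := by
    rw [Finset.smul_sum]
    refine Fintype.sum_equiv σ _ _ (fun s => ?_)
    rw [Finset.smul_sum]
    refine Fintype.sum_equiv σ _ _ (fun k => ?_)
    rw [haa, if_pos rfl, hbb, map_smul, map_smul, LinearMap.smul_apply, smul_smul, smul_smul,
      _root_.smul_apply]
    congr 1
    ring
  have ht2 : ‖t * t‖ = (q : ℝ)⁻¹ := by rw [norm_mul, ← sq, htn]
  rw [h2, norm_smul, ht2, mul_pow] at h1
  have h3 : (C * ‖a‖ * ‖b‖) ^ 2 ≤ (|C| * Real.sqrt 2) ^ 2 := by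
    have : (C * ‖a‖ * ‖b‖) ^ 2 = (|C| * (‖a‖ * ‖b‖)) ^ 2 := by
      rw [mul_pow, mul_pow, mul_pow, mul_pow, sq_abs]; ring
    rw [this]
    have h4 : ‖a‖ * ‖b‖ ≤ Real.sqrt 2 := by
      calc ‖a‖ * ‖b‖ ≤ 1 * Real.sqrt 2 := mul_le_mul hna hnb (norm_nonneg _) zero_le_one
        _ = Real.sqrt 2 := one_mul _
    exact pow_le_pow_left₀ (by positivity) (mul_le_mul_of_nonneg_left h4 (abs_nonneg C)) 2
  refine le_of_sq_le_sq ?_ (by positivity)
  set T := ‖∑ s : ZMod q, ∑ k : ZMod q, ee (α k + γ s + c * k ^ 2 * s) •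
      ψ (ch q j k) (ch q j (s - k)) (e s.val)‖ with hT
  have h5 : ((q : ℝ)⁻¹) ^ 2 * T ^ 2 ≤ (|C| * Real.sqrt 2) ^ 2 * q :=
    h1.trans (mul_le_mul_of_nonneg_right h3 hq.le)
  have h6 : T ^ 2 = (q : ℝ) ^ 2 * (((q : ℝ)⁻¹) ^ 2 * T ^ 2) := by
    field_simp
  rw [h6]
  calc (q : ℝ) ^ 2 * (((q : ℝ)⁻¹) ^ 2 * T ^ 2) ≤ (q : ℝ) ^ 2 * ((|C| * Real.sqrt 2) ^ 2 * q) :=
        mul_le_mul_of_nonneg_left h5 (by positivity)
    _ = (|C| * Real.sqrt 2 * (q * Real.sqrt q)) ^ 2 := by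
        rw [mul_pow _ (q * Real.sqrt q), mul_pow (q : ℝ) (Real.sqrt q), hs2]
        ring

theorem no_decomposition [CompleteSpace H] (e : ℕ → H) (he : Orthonormal ℂ e)
    (φ₁ φ₂ : AA →ₗ[ℂ] AA →ₗ[ℂ] (H →L[ℂ] H)) (C₁ C₂ : ℝ)
    (h₁ : ∀ (n : ℕ) (a : CStarMatrix (Fin n) (Fin n) AA)
            (b : CStarMatrix (Fin n) (Fin n) AA) (x : Fin n → H),
            ∑ i : Fin n, ‖∑ j : Fin n, ∑ k : Fin n, φ₁ (a i k) (b k j) (x j)‖ ^ 2
              ≤ (C₁ * ‖a‖ * ‖b‖) ^ 2 * ∑ j : Fin n, ‖x j‖ ^ 2)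
    (h₂ : ∀ (n : ℕ) (a : CStarMatrix (Fin n) (Fin n) AA)
            (b : CStarMatrix (Fin n) (Fin n) AA) (x : Fin n → H),
            ∑ i : Fin n, ‖∑ j : Fin n, ∑ k : Fin n, φ₂ (a i k) (b k j) (x j)‖ ^ 2
              ≤ (C₂ * ‖a‖ * ‖b‖) ^ 2 * ∑ j : Fin n, ‖x j‖ ^ 2)
    (hdec : ∀ a b : AA, phi e he a b = φ₁ a b + φ₂ b a) : False := by
  have key : ∀ j : ℕ, (2 : ℝ) ^ j ≤ Real.sqrt 2 * (|C₁| + |C₂|) := by
    intro j
    set q := qq j with hqdef
    have hq : (0 : ℝ) < q := by exact_mod_cast Nat.pos_of_ne_zero (NeZero.ne (qq j))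
    have hsq : 0 < Real.sqrt q := Real.sqrt_pos.mpr hq
    have hs2 : Real.sqrt q ^ 2 = q := Real.sq_sqrt hq.le
    have b1 := haag_lower q j e he φ₁ C₁ h₁ (-3) (neg_ne_zero.mpr (three_ne j))
      (fun k => 2 * k ^ 3) (fun _ => 0)
    have b2 := haag_lower q j e he φ₂ C₂ h₂ 3 (three_ne j)
      (fun l => -2 * l ^ 3) (fun s => -s ^ 3)
    have e2 : ∑ s : ZMod q, ∑ l : ZMod q, ee (-2 * l ^ 3 + -s ^ 3 + 3 * l ^ 2 * s) •
        φ₂ (ch q j l) (ch q j (s - l)) (e s.val)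
        = ∑ s : ZMod q, ∑ k : ZMod q, ee (-gg k (s - k)) •
          φ₂ (ch q j (s - k)) (ch q j k) (e s.val) := by
      refine Finset.sum_congr rfl fun s _ => ?_
      refine Fintype.sum_equiv (Equiv.subLeft s) _ _ (fun l => ?_)
      simp only [Equiv.subLeft_apply, sub_sub_cancel]
      congr 2
      unfold gg
      ring
    have e1 : ∑ s : ZMod q, ∑ k : ZMod q, ee (2 * k ^ 3 + 0 + -3 * k ^ 2 * s) •
        φ₁ (ch q j k) (ch q j (s - k)) (e s.val)
        = ∑ s : ZMod q, ∑ k : ZMod q, ee (-gg k (s - k)) •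
          φ₁ (ch q j k) (ch q j (s - k)) (e s.val) := by
      refine Finset.sum_congr rfl fun s _ => Finset.sum_congr rfl fun k _ => ?_
      congr 2
      unfold gg
      ring
    have e3 : (∑ s : ZMod q, ∑ k : ZMod q, ee (-gg k (s - k)) •
          φ₁ (ch q j k) (ch q j (s - k)) (e s.val))
        + (∑ s : ZMod q, ∑ k : ZMod q, ee (-gg k (s - k)) •
          φ₂ (ch q j (s - k)) (ch q j k) (e s.val))
        = (((q : ℝ) ^ 2 * cc j : ℝ) : ℂ) • e 0 := by
      rw [← Finset.sum_add_distrib]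
      have e4 : ∀ s k : ZMod q, ee (-gg k (s - k)) • φ₁ (ch q j k) (ch q j (s - k)) (e s.val)
          + ee (-gg k (s - k)) • φ₂ (ch q j (s - k)) (ch q j k) (e s.val)
          = ((cc j : ℝ) : ℂ) • e 0 := by
        intro s k
        rw [← smul_add, ← _root_.add_apply, ← hdec, phi_ch, _root_.smul_apply,
          _root_.smul_apply, add_sub_cancel, rk_apply]
        have e5 : inner ℂ (e s.val) (e s.val) = (1 : ℂ) := by
          rw [inner_self_eq_norm_sq_to_K, he.1]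
          norm_num
        rw [e5, one_smul, smul_smul, smul_smul]
        congr 1
        calc ee (-gg k (s - k)) * ((cc j : ℝ) : ℂ) * ee (gg k (s - k))
            = ((cc j : ℝ) : ℂ) * (ee (gg k (s - k)) * ee (-gg k (s - k))) := by ring
          _ = ((cc j : ℝ) : ℂ) := by rw [ee_mul_neg, mul_one]
      have e6 : ∀ s : ZMod q, ∑ k : ZMod q, ee (-gg k (s - k)) •
          φ₁ (ch q j k) (ch q j (s - k)) (e s.val)
          + ∑ k : ZMod q, ee (-gg k (s - k)) • φ₂ (ch q j (s - k)) (ch q j k) (e s.val)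
          = (q : ℂ) • (((cc j : ℝ) : ℂ) • e 0) := by
        intro s
        rw [← Finset.sum_add_distrib, Finset.sum_congr rfl (fun k _ => e4 s k), Finset.sum_const,
          Finset.card_univ, ZMod.card, Nat.cast_smul_eq_nsmul]
      rw [Finset.sum_congr rfl (fun s _ => e6 s), Finset.sum_const, Finset.card_univ, ZMod.card,
        ← Nat.cast_smul_eq_nsmul ℂ, smul_smul, smul_smul]
      congr 1
      push_cast
      ring
    have h3 : (q : ℝ) ^ 2 * cc j ≤ |C₁| * Real.sqrt 2 * (q * Real.sqrt q)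
        + |C₂| * Real.sqrt 2 * (q * Real.sqrt q) := by
      have h4 : ‖(((q : ℝ) ^ 2 * cc j : ℝ) : ℂ) • e 0‖ = (q : ℝ) ^ 2 * cc j := by
        rw [norm_smul, he.1 0, mul_one, Complex.norm_real, Real.norm_of_nonneg]
        have := cc_nonneg j
        positivity
      rw [← h4, ← e3]
      refine (norm_add_le _ _).trans (add_le_add ?_ ?_)
      · rw [← e1]; exact b1
      · rw [← e2]; exact b2
    have h5 : (q : ℝ) ^ 2 * cc j = 2 ^ j * (q * Real.sqrt q) := by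
      unfold cc
      rw [← hqdef]
      field_simp
      rw [hs2]
    rw [h5] at h3
    have h6 : 0 < (q : ℝ) * Real.sqrt q := by positivity
    have h7 : (2 : ℝ) ^ j * (q * Real.sqrt q)
        ≤ (Real.sqrt 2 * (|C₁| + |C₂|)) * (q * Real.sqrt q) := by
      calc _ ≤ _ := h3
        _ = _ := by ring
    exact le_of_mul_le_mul_right h7 h6
  obtain ⟨n, hn⟩ := pow_unbounded_of_one_lt (Real.sqrt 2 * (|C₁| + |C₂|)) (one_lt_two (α := ℝ))
  exact absurd (key n) (not_le.mpr hn)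

end

end Pool.Agent.Run7.h989.BL
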