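import Pool.Agent.Run7.h989.BL.Block

set_option autoImplicit false

/-! The main block estimate for the Blecher counterexample. -/

namespace Pool.Agent.Run7.h989.BL

open Finset Complex ComplexConjugate

theorem sum4 {α β γ δ M : Type*} [Fintype α] [Fintype β] [Fintype γ] [Fintype δ]
    [AddCommMonoid M] (f : α → β → γ → δ → M) :
    ∑ a, ∑ b, ∑ c, ∑ d, f a b c d = ∑ c, ∑ d, ∑ a, ∑ b, f a b c d := by
  have h1 : ∀ a, ∑ b, ∑ c, ∑ d, f a b c d = ∑ c, ∑ d, ∑ b, f a b c d := by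
    intro a
    rw [Finset.sum_comm]
    refine Finset.sum_congr rfl fun c _ => ?_
    rw [Finset.sum_comm]
  rw [Finset.sum_congr rfl (fun a _ => h1 a)]
  rw [Finset.sum_comm]
  refine Finset.sum_congr rfl fun c _ => ?_
  rw [Finset.sum_comm]

variable {q : ℕ} [NeZero q]

/-- the phase -/
def gg (k l : ZMod q) : ZMod q := 3 * k ^ 2 * l + k ^ 3

theorem gg_diff (k l r : ZMod q) :
    ee (gg k l) * conj (ee (gg (k - r) (l + r)))
      = ee ((6 * r) * k * l) * (ee (3 * r ^ 2 * k) * ee (-3 * r ^ 2 * l - 2 * r ^ 3)) := by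
  rw [conj_ee, ← ee_add, ← ee_add, ← ee_add]
  congr 1
  unfold gg
  ring

theorem N_bound [Fact q.Prime] (h6 : (6 : ZMod q) ≠ 0) {n m : ℕ}
    (X : ZMod q → Fin n → Fin n → ℂ) (Y : ZMod q → Fin m → Fin m → ℂ)
    (HCX : ColB X) (HRX : RowB X) (HCY : ColB Y) (HRY : RowB Y) (ζ : Fin n → Fin m → ℂ) :
    ∑ s : ZMod q, ∑ a, ∑ b,
      ‖∑ k, ee (gg k (s - k)) * ∑ p, X k p a * ∑ p', Y (s - k) p' b * ζ p p'‖ ^ 2
      ≤ (1 + Real.sqrt q) * ∑ p, ∑ p', ‖ζ p p'‖ ^ 2 := by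
  obtain ⟨u, v, lam, hl, hu1, hv1, hu2, hv2, hζ, hsum⟩ := schmidt ζ
  set xx : ZMod q → Fin n → Fin n → ℂ := fun k i a => ∑ p, X k p a * u i p with hxx
  set yy : ZMod q → Fin n → Fin m → ℂ := fun l i b => ∑ p', Y l p' b * v i p' with hyy
  set Z : ZMod q → ZMod q → Fin n → Fin m → ℂ := fun k l a b =>
    ∑ p, X k p a * ∑ p', Y l p' b * ζ p p' with hZdef
  have hZ : ∀ k l a b, Z k l a b = ∑ i, (lam i : ℂ) * (xx k i a * yy l i b) := by
    intro k l a b
    have e0 : ∀ i, (lam i : ℂ) * (xx k i a * yy l i b)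
        = ∑ p, ∑ p', X k p a * (Y l p' b * ((lam i : ℂ) * (u i p * v i p'))) := by
      intro i
      simp only [hxx, hyy]
      rw [Finset.sum_mul_sum, Finset.mul_sum]
      refine Finset.sum_congr rfl fun p _ => ?_
      rw [Finset.mul_sum]
      refine Finset.sum_congr rfl fun p' _ => ?_
      ring
    rw [Finset.sum_congr rfl (fun i _ => e0 i), Finset.sum_comm]
    simp only [hZdef]
    refine Finset.sum_congr rfl fun p _ => ?_
    rw [Finset.sum_comm, Finset.mul_sum]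
    refine Finset.sum_congr rfl fun p' _ => ?_
    rw [hζ, Finset.mul_sum, Finset.mul_sum]
  set G : ZMod q → ZMod q → Fin n → Fin n → ℂ := fun k k' i j =>
    ∑ a, xx k i a * conj (xx k' j a) with hG
  set K : ZMod q → ZMod q → Fin n → Fin n → ℂ := fun l l' i j =>
    ∑ b, yy l i b * conj (yy l' j b) with hK
  have hZZ : ∀ k l k' l', ∑ a, ∑ b, Z k l a b * conj (Z k' l' a b)
      = ∑ i, ∑ j, ((lam i * lam j : ℝ) : ℂ) * (G k k' i j * K l l' i j) := by
    intro k l k' l'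
    have e1 : ∀ a b, Z k l a b * conj (Z k' l' a b)
        = ∑ i, ∑ j, ((lam i * lam j : ℝ) : ℂ) *
          ((xx k i a * conj (xx k' j a)) * (yy l i b * conj (yy l' j b))) := by
      intro a b
      rw [hZ, hZ, map_sum, Finset.sum_mul_sum]
      refine Finset.sum_congr rfl fun i _ => Finset.sum_congr rfl fun j _ => ?_
      rw [map_mul, map_mul, Complex.conj_ofReal]
      push_cast
      ring
    rw [Finset.sum_congr rfl (fun a _ => Finset.sum_congr rfl (fun b _ => e1 a b)), sum4]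
    refine Finset.sum_congr rfl fun i _ => Finset.sum_congr rfl fun j _ => ?_
    simp only [hG, hK]
    rw [Finset.sum_mul_sum, Finset.mul_sum]
    refine Finset.sum_congr rfl fun a _ => ?_
    rw [Finset.mul_sum]
  have hSG : ∑ i, ∑ j, lam i * lam j * ∑ k : ZMod q, ∑ k' : ZMod q, ‖G k k' i j‖ ^ 2
      ≤ ∑ i, lam i ^ 2 := SG_bound X HCX HRX u lam hl hu1 hu2
  have hSK : ∑ i, ∑ j, lam i * lam j * ∑ k : ZMod q, ∑ k' : ZMod q, ‖K k k' i j‖ ^ 2
      ≤ ∑ i, lam i ^ 2 := SG_bound Y HCY HRY v lam hl hv1 hv2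
  have hZ0 : ∑ k, ∑ l, ∑ a, ∑ b, ‖Z k l a b‖ ^ 2 ≤ ∑ p, ∑ p', ‖ζ p p'‖ ^ 2 :=
    D0_bound X Y HRX HRY ζ
  show ∑ s : ZMod q, ∑ a, ∑ b, ‖∑ k, ee (gg k (s - k)) * Z k (s - k) a b‖ ^ 2
      ≤ (1 + Real.sqrt q) * ∑ p, ∑ p', ‖ζ p p'‖ ^ 2
  clear_value G K Z
  -- the complex expansion
  set D : ZMod q → ℂ := fun r => ∑ k, ∑ l, ∑ a, ∑ b,
    (ee (gg k l) * Z k l a b) * conj (ee (gg (k - r) (l + r)) * Z (k - r) (l + r) a b) with hD
  have hN : ((∑ s : ZMod q, ∑ a, ∑ b,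
      ‖∑ k, ee (gg k (s - k)) * Z k (s - k) a b‖ ^ 2 : ℝ) : ℂ) = ∑ r, D r := by
    push_cast
    have e1 : ∀ (s : ZMod q) a b, ((‖∑ k, ee (gg k (s - k)) * Z k (s - k) a b‖ : ℝ) : ℂ) ^ 2
        = (∑ k, ee (gg k (s - k)) * Z k (s - k) a b) *
          conj (∑ k, ee (gg k (s - k)) * Z k (s - k) a b) := by
      intro s a b
      rw [Complex.mul_conj']
    rw [Finset.sum_congr rfl (fun s _ => Finset.sum_congr rfl (fun a _ =>
      Finset.sum_congr rfl (fun b _ => e1 s a b)))]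
    have e2 : ∀ f : ZMod q → Fin n → Fin m → ℂ, ∑ s, ∑ a, ∑ b, f s a b
        = ∑ a, ∑ b, ∑ s, f s a b := by
      intro f
      rw [Finset.sum_comm]
      refine Finset.sum_congr rfl fun a _ => ?_
      rw [Finset.sum_comm]
    rw [e2]
    rw [Finset.sum_congr rfl (fun a _ => Finset.sum_congr rfl (fun b _ =>
      conv_sq (fun k l => ee (gg k l) * Z k l a b)))]
    have e3 : ∀ f : Fin n → Fin m → ZMod q → ZMod q → ZMod q → ℂ,
        ∑ a, ∑ b, ∑ r, ∑ k, ∑ l, f a b r k l = ∑ r, ∑ k, ∑ l, ∑ a, ∑ b, f a b r k l := by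
      intro f
      rw [sum4]
      refine Finset.sum_congr rfl fun r _ => Finset.sum_congr rfl fun k _ => ?_
      rw [Finset.sum_congr rfl (fun a _ => Finset.sum_comm), Finset.sum_comm]
    rw [e3]
  -- the diagonal term
  have hD0 : ‖D 0‖ ≤ ∑ p, ∑ p', ‖ζ p p'‖ ^ 2 := by
    refine le_trans ?_ hZ0
    simp only [hD]
    refine (norm_sum_le _ _).trans (Finset.sum_le_sum fun k _ => ?_)
    refine (norm_sum_le _ _).trans (Finset.sum_le_sum fun l _ => ?_)
    refine (norm_sum_le _ _).trans (Finset.sum_le_sum fun a _ => ?_)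
    refine (norm_sum_le _ _).trans (Finset.sum_le_sum fun b _ => ?_)
    rw [sub_zero, add_zero, norm_mul, RCLike.norm_conj, norm_mul, norm_ee, one_mul, ← sq]
  -- the off-diagonal terms
  have hDr : ∀ r : ZMod q, r ≠ 0 → ‖D r‖ ≤ ∑ i, ∑ j, (lam i * lam j) *
      ((Real.sqrt q / 2) * (∑ k, ‖G k (k - r) i j‖ ^ 2 + ∑ l, ‖K l (l + r) i j‖ ^ 2)) := by
    intro r hr
    have e1 : D r = ∑ i, ∑ j, ((lam i * lam j : ℝ) : ℂ) * ∑ k, ∑ l, ee ((6 * r) * k * l) *
        ((ee (3 * r ^ 2 * k) * G k (k - r) i j) *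
          (ee (-3 * r ^ 2 * l - 2 * r ^ 3) * K l (l + r) i j)) := by
      simp only [hD]
      have e2 : ∀ k l, ∑ a, ∑ b,
          (ee (gg k l) * Z k l a b) * conj (ee (gg (k - r) (l + r)) * Z (k - r) (l + r) a b)
          = ∑ i, ∑ j, ((lam i * lam j : ℝ) : ℂ) * (ee ((6 * r) * k * l) *
        ((ee (3 * r ^ 2 * k) * G k (k - r) i j) *
          (ee (-3 * r ^ 2 * l - 2 * r ^ 3) * K l (l + r) i j))) := by
        intro k l
        have e3 : ∀ a b, (ee (gg k l) * Z k l a b) *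
            conj (ee (gg (k - r) (l + r)) * Z (k - r) (l + r) a b)
            = (ee (gg k l) * conj (ee (gg (k - r) (l + r)))) *
              (Z k l a b * conj (Z (k - r) (l + r) a b)) := by
          intro a b
          rw [map_mul]; ring
        rw [Finset.sum_congr rfl (fun a _ => Finset.sum_congr rfl (fun b _ => e3 a b))]
        simp_rw [← Finset.mul_sum]
        rw [hZZ, gg_diff, Finset.mul_sum]
        refine Finset.sum_congr rfl fun i _ => ?_
        rw [Finset.mul_sum]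
        refine Finset.sum_congr rfl fun j _ => ?_
        ring
      rw [Finset.sum_congr rfl (fun k _ => Finset.sum_congr rfl (fun l _ => e2 k l)), sum4]
      refine Finset.sum_congr rfl fun i _ => Finset.sum_congr rfl fun j _ => ?_
      rw [Finset.mul_sum]
      refine Finset.sum_congr rfl fun k _ => ?_
      rw [Finset.mul_sum]
    rw [e1]
    refine (norm_sum_le _ _).trans (Finset.sum_le_sum fun i _ => ?_)
    refine (norm_sum_le _ _).trans (Finset.sum_le_sum fun j _ => ?_)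
    have h0 : 0 ≤ lam i * lam j := mul_nonneg (hl i) (hl j)
    rw [norm_mul, Complex.norm_real, Real.norm_of_nonneg h0]
    refine mul_le_mul_of_nonneg_left ?_ h0
    have h6r : (6 * r : ZMod q) ≠ 0 := mul_ne_zero h6 hr
    refine (bilin_bound (6 * r) h6r (fun k => ee (3 * r ^ 2 * k) * G k (k - r) i j)
      (fun l => ee (-3 * r ^ 2 * l - 2 * r ^ 3) * K l (l + r) i j)).trans (le_of_eq ?_)
    congr 2
    · refine Finset.sum_congr rfl fun k _ => ?_
      rw [norm_mul, norm_ee, one_mul]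
    · refine Finset.sum_congr rfl fun l _ => ?_
      rw [norm_mul, norm_ee, one_mul]
  clear_value D
  have hoff : ∑ r ∈ Finset.univ.erase (0 : ZMod q), ‖D r‖
      ≤ Real.sqrt q * ∑ p, ∑ p', ‖ζ p p'‖ ^ 2 := by
    have hnn : ∀ r : ZMod q, 0 ≤ ∑ i, ∑ j, (lam i * lam j) *
      ((Real.sqrt q / 2) * (∑ k, ‖G k (k - r) i j‖ ^ 2 + ∑ l, ‖K l (l + r) i j‖ ^ 2)) := by
      intro r
      refine Finset.sum_nonneg fun i _ => Finset.sum_nonneg fun j _ => ?_
      have h0 : 0 ≤ lam i * lam j := mul_nonneg (hl i) (hl j)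
      have h1 : 0 ≤ ∑ k, ‖G k (k - r) i j‖ ^ 2 := Finset.sum_nonneg fun k _ => by positivity
      have h2 : 0 ≤ ∑ l, ‖K l (l + r) i j‖ ^ 2 := Finset.sum_nonneg fun k _ => by positivity
      positivity
    calc ∑ r ∈ Finset.univ.erase (0 : ZMod q), ‖D r‖
        ≤ ∑ r ∈ Finset.univ.erase (0 : ZMod q), ∑ i, ∑ j, (lam i * lam j) *
      ((Real.sqrt q / 2) * (∑ k, ‖G k (k - r) i j‖ ^ 2 + ∑ l, ‖K l (l + r) i j‖ ^ 2)) :=
          Finset.sum_le_sum fun r hr => hDr r (Finset.ne_of_mem_erase hr)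
      _ ≤ ∑ r : ZMod q, ∑ i, ∑ j, (lam i * lam j) *
      ((Real.sqrt q / 2) * (∑ k, ‖G k (k - r) i j‖ ^ 2 + ∑ l, ‖K l (l + r) i j‖ ^ 2)) :=
          Finset.sum_le_sum_of_subset_of_nonneg (Finset.erase_subset _ _) fun r _ _ => hnn r
      _ = (Real.sqrt q / 2) * (∑ i, ∑ j, lam i * lam j * ∑ k, ∑ k', ‖G k k' i j‖ ^ 2
            + ∑ i, ∑ j, lam i * lam j * ∑ l, ∑ l', ‖K l l' i j‖ ^ 2) := by
          have e1 : ∀ f : ZMod q → Fin n → Fin n → ℝ, ∑ r, ∑ i, ∑ j, f r i j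
              = ∑ i, ∑ j, ∑ r, f r i j := by
            intro f
            rw [Finset.sum_comm]
            refine Finset.sum_congr rfl fun a _ => ?_
            rw [Finset.sum_comm]
          rw [e1, ← Finset.sum_add_distrib, Finset.mul_sum]
          refine Finset.sum_congr rfl fun i _ => ?_
          rw [← Finset.sum_add_distrib, Finset.mul_sum]
          refine Finset.sum_congr rfl fun j _ => ?_
          rw [← Finset.mul_sum, ← Finset.mul_sum, Finset.sum_add_distrib]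
          have e2 : ∑ r : ZMod q, ∑ k, ‖G k (k - r) i j‖ ^ 2 = ∑ k, ∑ k', ‖G k k' i j‖ ^ 2 := by
            rw [Finset.sum_comm]
            refine Finset.sum_congr rfl fun k _ => ?_
            exact Fintype.sum_equiv (Equiv.subLeft k) _ _ (fun r => by simp)
          have e3 : ∑ r : ZMod q, ∑ l, ‖K l (l + r) i j‖ ^ 2 = ∑ l, ∑ l', ‖K l l' i j‖ ^ 2 := by
            rw [Finset.sum_comm]
            refine Finset.sum_congr rfl fun l _ => ?_
            exact Fintype.sum_equiv (Equiv.addLeft l) _ _ (fun r => by simp)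
          rw [e2, e3]
          ring
      _ ≤ (Real.sqrt q / 2) * (∑ i, lam i ^ 2 + ∑ i, lam i ^ 2) := by
          have : 0 ≤ Real.sqrt q / 2 := by positivity
          exact mul_le_mul_of_nonneg_left (add_le_add hSG hSK) this
      _ = Real.sqrt q * ∑ p, ∑ p', ‖ζ p p'‖ ^ 2 := by rw [hsum]; ring
  have hfin : ∑ s : ZMod q, ∑ a, ∑ b, ‖∑ k, ee (gg k (s - k)) * Z k (s - k) a b‖ ^ 2
      ≤ ‖D 0‖ + ∑ r ∈ Finset.univ.erase (0 : ZMod q), ‖D r‖ := by
    have h1 : (0 : ℝ) ≤ ∑ s : ZMod q, ∑ a, ∑ b,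
        ‖∑ k, ee (gg k (s - k)) * Z k (s - k) a b‖ ^ 2 :=
      Finset.sum_nonneg fun s _ => Finset.sum_nonneg fun a _ => Finset.sum_nonneg fun b _ => by
        positivity
    rw [← Real.norm_of_nonneg h1, ← Complex.norm_real, hN,
      ← Finset.add_sum_erase Finset.univ D (Finset.mem_univ 0)]
    exact (norm_add_le _ _).trans (add_le_add le_rfl (norm_sum_le _ _))
  calc _ ≤ ‖D 0‖ + ∑ r ∈ Finset.univ.erase (0 : ZMod q), ‖D r‖ := hfin
    _ ≤ ∑ p, ∑ p', ‖ζ p p'‖ ^ 2 + Real.sqrt q * ∑ p, ∑ p', ‖ζ p p'‖ ^ 2 := add_le_add hD0 hoff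
    _ = _ := by ring

/-- the block estimate, after duality -/
theorem block_bound [Fact q.Prime] (h6 : (6 : ZMod q) ≠ 0) {n m : ℕ}
    (X : ZMod q → Fin n → Fin n → ℂ) (Y : ZMod q → Fin m → Fin m → ℂ)
    (HCX : ColB X) (HRX : RowB X) (HCY : ColB Y) (HRY : RowB Y)
    (ξ : ZMod q → Fin n → Fin m → ℂ) :
    ∑ p, ∑ p', ‖∑ s : ZMod q, ∑ a, ∑ b,
      (∑ k, ee (gg k (s - k)) * (X k p a * Y (s - k) p' b)) * ξ s a b‖ ^ 2
      ≤ (1 + Real.sqrt q) * ∑ s : ZMod q, ∑ a, ∑ b, ‖ξ s a b‖ ^ 2 := by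
  set η : Fin n → Fin m → ℂ := fun p p' => ∑ s : ZMod q, ∑ a, ∑ b,
      (∑ k, ee (gg k (s - k)) * (X k p a * Y (s - k) p' b)) * ξ s a b with hη
  set M : ZMod q → Fin n → Fin m → ℂ := fun s a b =>
    ∑ k, ee (gg k (s - k)) * ∑ p, X k p a * ∑ p', Y (s - k) p' b * conj (η p p') with hM
  have hN := N_bound h6 X Y HCX HRX HCY HRY (fun p p' => conj (η p p'))
  have hN' : ∑ s : ZMod q, ∑ a, ∑ b, ‖M s a b‖ ^ 2
      ≤ (1 + Real.sqrt q) * ∑ p, ∑ p', ‖η p p'‖ ^ 2 := by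
    refine hN.trans (le_of_eq ?_)
    congr 1
    refine Finset.sum_congr rfl fun p _ => Finset.sum_congr rfl fun p' _ => ?_
    rw [RCLike.norm_conj]
  have hdual : ((∑ p, ∑ p', ‖η p p'‖ ^ 2 : ℝ) : ℂ) = ∑ s : ZMod q, ∑ a, ∑ b, M s a b * ξ s a b := by
    push_cast
    have e1 : ∀ p p', ((‖η p p'‖ : ℝ) : ℂ) ^ 2 = ∑ s : ZMod q, ∑ a, ∑ b,
        (∑ k, ee (gg k (s - k)) * (X k p a * (Y (s - k) p' b * conj (η p p')))) * ξ s a b := by
      intro p p'
      rw [← Complex.conj_mul']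
      nth_rewrite 2 [hη]
      simp only
      rw [Finset.mul_sum]
      refine Finset.sum_congr rfl fun s _ => ?_
      rw [Finset.mul_sum]
      refine Finset.sum_congr rfl fun a _ => ?_
      rw [Finset.mul_sum]
      refine Finset.sum_congr rfl fun b _ => ?_
      rw [← mul_assoc, Finset.mul_sum]
      congr 1
      refine Finset.sum_congr rfl fun k _ => ?_
      ring
    rw [Finset.sum_congr rfl (fun p _ => Finset.sum_congr rfl (fun p' _ => e1 p p'))]
    have e3 : ∀ f : Fin n → Fin m → ZMod q → Fin n → Fin m → ℂ,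
        ∑ p, ∑ p', ∑ s, ∑ a, ∑ b, f p p' s a b = ∑ s, ∑ a, ∑ b, ∑ p, ∑ p', f p p' s a b := by
      intro f
      rw [sum4]
      refine Finset.sum_congr rfl fun s _ => Finset.sum_congr rfl fun a _ => ?_
      rw [Finset.sum_congr rfl (fun p _ => Finset.sum_comm), Finset.sum_comm]
    rw [e3]
    refine Finset.sum_congr rfl fun s _ => Finset.sum_congr rfl fun a _ =>
      Finset.sum_congr rfl fun b _ => ?_
    simp only [hM]
    simp_rw [← Finset.sum_mul]
    congr 1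
    have e4 : ∀ p, ∑ p', ∑ k, ee (gg k (s - k)) * (X k p a * (Y (s - k) p' b * conj (η p p')))
        = ∑ k, ee (gg k (s - k)) * (X k p a * ∑ p', Y (s - k) p' b * conj (η p p')) := by
      intro p
      rw [Finset.sum_comm]
      refine Finset.sum_congr rfl fun k _ => ?_
      rw [Finset.mul_sum, Finset.mul_sum]
    rw [Finset.sum_congr rfl (fun p _ => e4 p), Finset.sum_comm]
    refine Finset.sum_congr rfl fun k _ => ?_
    rw [← Finset.mul_sum]
  set E : ℝ := ∑ p, ∑ p', ‖η p p'‖ ^ 2 with hE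
  set R : ℝ := ∑ s : ZMod q, ∑ a, ∑ b, ‖ξ s a b‖ ^ 2 with hR
  have hE0 : 0 ≤ E := Finset.sum_nonneg fun p _ => Finset.sum_nonneg fun p' _ => by positivity
  have hR0 : 0 ≤ R := Finset.sum_nonneg fun s _ => Finset.sum_nonneg fun a _ =>
    Finset.sum_nonneg fun b _ => by positivity
  have h1 : E ≤ ∑ s : ZMod q, ∑ a, ∑ b, ‖M s a b‖ * ‖ξ s a b‖ := by
    rw [← Real.norm_of_nonneg hE0, ← Complex.norm_real, hdual]
    refine (norm_sum_le _ _).trans (Finset.sum_le_sum fun k _ => ?_)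
    refine (norm_sum_le _ _).trans (Finset.sum_le_sum fun l _ => ?_)
    refine (norm_sum_le _ _).trans (Finset.sum_le_sum fun a _ => ?_)
    rw [norm_mul]
  have h2 : (∑ s : ZMod q, ∑ a, ∑ b, ‖M s a b‖ * ‖ξ s a b‖) ^ 2
      ≤ (∑ s : ZMod q, ∑ a, ∑ b, ‖M s a b‖ ^ 2) * R := by
    clear_value M
    have e1 : ∀ f : ZMod q → Fin n → Fin m → ℝ, ∑ s, ∑ a, ∑ b, f s a b
        = ∑ t : ZMod q × Fin n × Fin m, f t.1 t.2.1 t.2.2 := by
      intro f
      rw [Fintype.sum_prod_type]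
      refine Finset.sum_congr rfl fun s _ => ?_
      rw [Fintype.sum_prod_type]
    rw [hR, e1, e1, e1]
    exact Finset.sum_mul_sq_le_sq_mul_sq _ _ _
  clear_value M E R
  have h3 : E ^ 2 ≤ ((1 + Real.sqrt q) * E) * R := by
    calc E ^ 2 ≤ (∑ s : ZMod q, ∑ a, ∑ b, ‖M s a b‖ * ‖ξ s a b‖) ^ 2 := by
          exact pow_le_pow_left₀ hE0 h1 2
      _ ≤ (∑ s : ZMod q, ∑ a, ∑ b, ‖M s a b‖ ^ 2) * R := h2
      _ ≤ ((1 + Real.sqrt q) * E) * R := mul_le_mul_of_nonneg_right hN' hR0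
  by_cases hEz : E = 0
  · rw [hEz]; positivity
  · have hEp : 0 < E := lt_of_le_of_ne hE0 (Ne.symm hEz)
    have h4 : E * E ≤ E * ((1 + Real.sqrt q) * R) := by
      calc E * E = E ^ 2 := by ring
        _ ≤ ((1 + Real.sqrt q) * E) * R := h3
        _ = E * ((1 + Real.sqrt q) * R) := by ring
    exact le_of_mul_le_mul_left h4 hEp

end Pool.Agent.Run7.h989.BL
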