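import Pool.Agent.Run7.h989.BL.Blk

set_option autoImplicit false

/-! The bilinear map of the Blecher counterexample. -/

namespace Pool.Agent.Run7.h989.BL

open Finset Complex ComplexConjugate
open scoped CStarMatrix

/-- the primes -/
noncomputable def qq (j : ℕ) : ℕ := Classical.choose (Nat.exists_infinite_primes (4 * 256 ^ j + 5))

theorem qq_ge (j : ℕ) : 4 * 256 ^ j + 5 ≤ qq j :=
  (Classical.choose_spec (Nat.exists_infinite_primes (4 * 256 ^ j + 5))).1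

theorem qq_prime (j : ℕ) : (qq j).Prime :=
  (Classical.choose_spec (Nat.exists_infinite_primes (4 * 256 ^ j + 5))).2

instance (j : ℕ) : Fact (qq j).Prime := ⟨qq_prime j⟩

instance (j : ℕ) : NeZero (qq j) := ⟨(qq_prime j).ne_zero⟩

theorem small_ne (j : ℕ) (t : ℕ) (ht : 0 < t) (ht' : t ≤ 6) : ((t : ℕ) : ZMod (qq j)) ≠ 0 := by
  intro h
  rw [ZMod.natCast_eq_zero_iff] at h
  have h1 := Nat.le_of_dvd ht h
  have h2 := qq_ge j
  have h3 : 1 ≤ 256 ^ j := Nat.one_le_pow _ _ (by norm_num)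
  omega

theorem six_ne (j : ℕ) : (6 : ZMod (qq j)) ≠ 0 := by
  exact_mod_cast small_ne j 6 (by norm_num) (by norm_num)

theorem three_ne (j : ℕ) : (3 : ZMod (qq j)) ≠ 0 := by
  exact_mod_cast small_ne j 3 (by norm_num) (by norm_num)

/-- the weights -/
noncomputable def cc (j : ℕ) : ℝ := 2 ^ j / Real.sqrt (qq j)

theorem sqrt_qq (j : ℕ) : 2 * 16 ^ j ≤ Real.sqrt (qq j) := by
  apply Real.le_sqrt_of_sq_le
  have h1 : ((4 * 256 ^ j + 5 : ℕ) : ℝ) ≤ qq j := by exact_mod_cast qq_ge j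
  push_cast at h1
  have h2 : ((2 : ℝ) * 16 ^ j) ^ 2 = 4 * 256 ^ j := by
    rw [mul_pow, ← pow_mul, mul_comm j 2, pow_mul]
    norm_num
  linarith

theorem cc_nonneg (j : ℕ) : 0 ≤ cc j := by unfold cc; positivity

theorem cc_bound (j : ℕ) : cc j ^ 2 * (1 + Real.sqrt (qq j)) ≤ ((1 / 2 : ℝ) ^ j) ^ 2 := by
  have h := sqrt_qq j
  set r := Real.sqrt (qq j) with hr
  have h16 : (1 : ℝ) ≤ 16 ^ j := one_le_pow₀ (by norm_num)
  have hr1 : 1 ≤ r := by linarith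
  have hr0 : 0 < r := by linarith
  have hcc : cc j ^ 2 = 4 ^ j / r ^ 2 := by
    unfold cc
    rw [div_pow, ← pow_mul, mul_comm j 2, pow_mul]
    norm_num [hr]
  have h4 : ((1 / 2 : ℝ) ^ j) ^ 2 = 1 / 4 ^ j := by
    rw [← pow_mul, mul_comm j 2, pow_mul, one_div, one_div, ← inv_pow]
    norm_num
  rw [hcc, h4, div_mul_eq_mul_div, div_le_div_iff₀ (by positivity) (by positivity)]
  have h5 : (4 : ℝ) ^ j * 4 ^ j = 16 ^ j := by rw [← mul_pow]; norm_num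
  have h6 : (16 : ℝ) ^ j * (1 + r) ≤ r ^ 2 := by
    have : (16 : ℝ) ^ j * (1 + r) ≤ 16 ^ j * (2 * r) :=
      mul_le_mul_of_nonneg_left (by linarith) (by positivity)
    nlinarith
  calc (4 : ℝ) ^ j * (1 + r) * 4 ^ j = (4 ^ j * 4 ^ j) * (1 + r) := by ring
    _ = 16 ^ j * (1 + r) := by rw [h5]
    _ ≤ r ^ 2 := h6
    _ = 1 * r ^ 2 := by ring

section

variable [PartialOrder AA] [StarOrderedRing AA]
variable {H : Type*} [NormedAddCommGroup H] [InnerProductSpace ℂ H]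

/-- the weighted block -/
noncomputable def tm (e : ℕ → H) (j : ℕ) : AA →ₗ[ℂ] AA →ₗ[ℂ] (H →L[ℂ] H) :=
  ((cc j : ℝ) : ℂ) • blk (qq j) j e

omit [PartialOrder AA] [StarOrderedRing AA] in
theorem tm_apply (e : ℕ → H) (j : ℕ) (a b : AA) :
    tm e j a b = ((cc j : ℝ) : ℂ) • blk (qq j) j e a b := rfl

theorem tm_jcb (e : ℕ → H) (he : Orthonormal ℂ e) (j : ℕ) (n m : ℕ)
    (a : CStarMatrix (Fin n) (Fin n) AA)
    (b : CStarMatrix (Fin m) (Fin m) AA) (x : Fin n × Fin m → H) :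
    ∑ p : Fin n × Fin m, ‖∑ r : Fin n × Fin m, tm e j (a p.1 r.1) (b p.2 r.2) (x r)‖ ^ 2
      ≤ ((1 / 2 : ℝ) ^ j * (‖a‖ * ‖b‖)) ^ 2 * ∑ r : Fin n × Fin m, ‖x r‖ ^ 2 := by
  have h := blk_jcb (qq j) j (six_ne j) e he n m a b x
  have h0 : 0 ≤ (‖a‖ * ‖b‖) ^ 2 * ∑ r : Fin n × Fin m, ‖x r‖ ^ 2 := by positivity
  have h1 : ∀ p : Fin n × Fin m,
      ‖∑ r : Fin n × Fin m, tm e j (a p.1 r.1) (b p.2 r.2) (x r)‖ ^ 2
      = cc j ^ 2 * ‖∑ r : Fin n × Fin m, blk (qq j) j e (a p.1 r.1) (b p.2 r.2) (x r)‖ ^ 2 := by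
    intro p
    have : ∑ r : Fin n × Fin m, tm e j (a p.1 r.1) (b p.2 r.2) (x r)
        = ((cc j : ℝ) : ℂ) • ∑ r : Fin n × Fin m,
          blk (qq j) j e (a p.1 r.1) (b p.2 r.2) (x r) := by
      rw [Finset.smul_sum]
      rfl
    rw [this, norm_smul, mul_pow, Complex.norm_real, Real.norm_of_nonneg (cc_nonneg j)]
  rw [Finset.sum_congr rfl (fun p _ => h1 p), ← Finset.mul_sum]
  calc cc j ^ 2 * ∑ p : Fin n × Fin m,
        ‖∑ r : Fin n × Fin m, blk (qq j) j e (a p.1 r.1) (b p.2 r.2) (x r)‖ ^ 2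
      ≤ cc j ^ 2 * ((1 + Real.sqrt (qq j)) * (‖a‖ * ‖b‖) ^ 2 *
          ∑ r : Fin n × Fin m, ‖x r‖ ^ 2) := mul_le_mul_of_nonneg_left h (by positivity)
    _ = (cc j ^ 2 * (1 + Real.sqrt (qq j))) * ((‖a‖ * ‖b‖) ^ 2 *
          ∑ r : Fin n × Fin m, ‖x r‖ ^ 2) := by ring
    _ ≤ ((1 / 2 : ℝ) ^ j) ^ 2 * ((‖a‖ * ‖b‖) ^ 2 *
          ∑ r : Fin n × Fin m, ‖x r‖ ^ 2) := mul_le_mul_of_nonneg_right (cc_bound j) h0
    _ = _ := by ring

omit [PartialOrder AA] [StarOrderedRing AA] in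
/-- summation in the Hilbert direct sum -/
theorem sum_bound {ι : Type*} [Fintype ι] (f : ℕ → ι → H) (g : ι → H)
    (hfg : ∀ p, HasSum (fun j => f j p) (g p)) (c : ℕ → ℝ) (C : ℝ) (hc : ∀ j, 0 ≤ c j)
    (hcC : HasSum c C) (hb : ∀ j, ∑ p, ‖f j p‖ ^ 2 ≤ c j ^ 2) : ∑ p, ‖g p‖ ^ 2 ≤ C ^ 2 := by
  have h1 : HasSum f g := Pi.hasSum.mpr hfg
  have h2 : HasSum (fun j => (WithLp.toLp 2 (f j) : PiLp 2 (fun _ : ι => H)))
      (WithLp.toLp 2 g : PiLp 2 (fun _ : ι => H)) :=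
    ((PiLp.continuousLinearEquiv 2 ℂ (fun _ : ι => H)).symm :
      (ι → H) →L[ℂ] PiLp 2 (fun _ : ι => H)).hasSum h1
  have h3 : ∀ j, ‖(WithLp.toLp 2 (f j) : PiLp 2 (fun _ : ι => H))‖ ≤ c j := by
    intro j
    refine le_of_sq_le_sq ?_ (hc j)
    rw [PiLp.norm_sq_eq_of_L2]
    exact hb j
  have h4 : ‖(WithLp.toLp 2 g : PiLp 2 (fun _ : ι => H))‖ ≤ C := h2.norm_le_of_bounded hcC h3
  have h5 := pow_le_pow_left₀ (norm_nonneg _) h4 2
  rw [PiLp.norm_sq_eq_of_L2] at h5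
  exact h5

/-- the one by one matrix -/
def one1 (a : AA) : CStarMatrix (Fin 1) (Fin 1) AA := fun _ _ => a

theorem norm_one_by_one (a : AA) : ‖one1 a‖ ≤ ‖a‖ := by
  refine norm_le_of_pointwise _ _ (norm_nonneg _) (fun x v => ?_)
  simp only [Fin.sum_univ_one, one1]
  rw [norm_mul, mul_pow, mul_comm]
  exact mul_le_mul_of_nonneg_right
    (pow_le_pow_left₀ (norm_nonneg _) (BoundedContinuousFunction.norm_coe_le_norm a x) 2)
    (by positivity)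

theorem tm_norm (e : ℕ → H) (he : Orthonormal ℂ e) (j : ℕ) (a b : AA) :
    ‖tm e j a b‖ ≤ (1 / 2 : ℝ) ^ j * (‖a‖ * ‖b‖) := by
  refine ContinuousLinearMap.opNorm_le_bound _ (by positivity) (fun x => ?_)
  have h := tm_jcb e he j 1 1 (one1 a) (one1 b) (fun _ => x)
  simp only [Fin.sum_univ_one, Fintype.sum_prod_type] at h
  refine le_of_sq_le_sq (h.trans ?_) (by positivity)
  have h1 := norm_one_by_one a
  have h2 := norm_one_by_one b
  have h3 : ‖one1 a‖ * ‖one1 b‖ ≤ ‖a‖ * ‖b‖ :=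
    mul_le_mul h1 h2 (norm_nonneg _) (norm_nonneg _)
  have h4 : (1 / 2 : ℝ) ^ j * (‖one1 a‖ * ‖one1 b‖) ≤ (1 / 2 : ℝ) ^ j * (‖a‖ * ‖b‖) :=
    mul_le_mul_of_nonneg_left h3 (by positivity)
  have h5 : 0 ≤ (1 / 2 : ℝ) ^ j * (‖one1 a‖ * ‖one1 b‖) := by positivity
  rw [mul_pow _ ‖x‖]
  exact mul_le_mul_of_nonneg_right (pow_le_pow_left₀ h5 h4 2) (by positivity)

theorem tm_summable [CompleteSpace H] (e : ℕ → H) (he : Orthonormal ℂ e) (a b : AA) :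
    Summable (fun j => tm e j a b) := by
  refine Summable.of_norm_bounded (g := fun j => (1 / 2 : ℝ) ^ j * (‖a‖ * ‖b‖)) ?_
    (fun j => tm_norm e he j a b)
  exact summable_geometric_two.mul_right _

/-- the bilinear map -/
noncomputable def phi [CompleteSpace H] (e : ℕ → H) (he : Orthonormal ℂ e) :
    AA →ₗ[ℂ] AA →ₗ[ℂ] (H →L[ℂ] H) :=
  LinearMap.mk₂ ℂ (fun a b => ∑' j, tm e j a b)
    (by
      intro a a' b
      rw [← (tm_summable e he a b).tsum_add (tm_summable e he a' b)]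
      refine tsum_congr fun j => ?_
      rw [map_add]; rfl)
    (by
      intro c a b
      rw [← (tm_summable e he a b).tsum_const_smul]
      refine tsum_congr fun j => ?_
      rw [map_smul]; rfl)
    (by
      intro a b b'
      rw [← (tm_summable e he a b).tsum_add (tm_summable e he a b')]
      refine tsum_congr fun j => ?_
      rw [map_add])
    (by
      intro c a b
      rw [← (tm_summable e he a b).tsum_const_smul]
      refine tsum_congr fun j => ?_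
      rw [map_smul])

theorem phi_apply [CompleteSpace H] (e : ℕ → H) (he : Orthonormal ℂ e) (a b : AA) :
    phi e he a b = ∑' j, tm e j a b := rfl

theorem phi_hasSum1 [CompleteSpace H] (e : ℕ → H) (he : Orthonormal ℂ e) (a b : AA) :
    HasSum (fun j => tm e j a b) (phi e he a b) := by
  rw [phi_apply]
  exact (tm_summable e he a b).hasSum

omit [PartialOrder AA] [StarOrderedRing AA] in
theorem clm_hasSum (f : ℕ → (H →L[ℂ] H)) (g : H →L[ℂ] H) (h : HasSum f g) (x : H) :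
    HasSum (fun j => f j x) (g x) := by
  exact (ContinuousLinearMap.apply ℂ H x).hasSum h

theorem phi_hasSum [CompleteSpace H] (e : ℕ → H) (he : Orthonormal ℂ e) (a b : AA) (x : H) :
    HasSum (fun j => tm e j a b x) (phi e he a b x) :=
  clm_hasSum (fun j => tm e j a b) (phi e he a b) (phi_hasSum1 e he a b) x

theorem phi_jcb [CompleteSpace H] (e : ℕ → H) (he : Orthonormal ℂ e) (n m : ℕ)
    (a : CStarMatrix (Fin n) (Fin n) AA)
    (b : CStarMatrix (Fin m) (Fin m) AA) (x : Fin n × Fin m → H) :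
    ∑ p : Fin n × Fin m, ‖∑ r : Fin n × Fin m, phi e he (a p.1 r.1) (b p.2 r.2) (x r)‖ ^ 2
      ≤ (2 * ‖a‖ * ‖b‖) ^ 2 * ∑ r : Fin n × Fin m, ‖x r‖ ^ 2 := by
  have hx0 : 0 ≤ ∑ r : Fin n × Fin m, ‖x r‖ ^ 2 := Finset.sum_nonneg fun r _ => by positivity
  obtain ⟨S, hS0, hS2⟩ : ∃ S : ℝ, 0 ≤ S ∧ S ^ 2 = ∑ r : Fin n × Fin m, ‖x r‖ ^ 2 :=
    ⟨Real.sqrt _, Real.sqrt_nonneg _, Real.sq_sqrt hx0⟩
  have hfg : ∀ p : Fin n × Fin m,
      HasSum (fun j => ∑ r : Fin n × Fin m, tm e j (a p.1 r.1) (b p.2 r.2) (x r))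
        (∑ r : Fin n × Fin m, phi e he (a p.1 r.1) (b p.2 r.2) (x r)) := fun p =>
    hasSum_sum (fun r _ => phi_hasSum e he (a p.1 r.1) (b p.2 r.2) (x r))
  have hb : ∀ j : ℕ, ∑ p : Fin n × Fin m,
      ‖∑ r : Fin n × Fin m, tm e j (a p.1 r.1) (b p.2 r.2) (x r)‖ ^ 2
      ≤ ((1 / 2 : ℝ) ^ j * (‖a‖ * ‖b‖ * S)) ^ 2 := by
    intro j
    refine (tm_jcb e he j n m a b x).trans (le_of_eq ?_)
    rw [← hS2]
    ring
  have hcC : HasSum (fun j : ℕ => (1 / 2 : ℝ) ^ j * (‖a‖ * ‖b‖ * S)) (2 * (‖a‖ * ‖b‖ * S)) :=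
    hasSum_geometric_two.mul_right _
  have hc : ∀ j : ℕ, 0 ≤ (1 / 2 : ℝ) ^ j * (‖a‖ * ‖b‖ * S) := fun j => by positivity
  have h := sum_bound _ _ hfg _ _ hc hcC hb
  refine h.trans (le_of_eq ?_)
  rw [← hS2]
  ring

end

end Pool.Agent.Run7.h989.BL
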